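import Mathlib

set_option autoImplicit false

namespace Pool.Agent.X170.Esc

open Set Filter Topology MeasureTheory
open scoped ENNReal

/-- radii of the walls -/
noncomputable def rad (K k : ℕ) : ℝ := 1 / 2 + k / (4 * (K + 1))

/-- sides of the gates -/
def sg (k : ℕ) : ℝ := (-1) ^ k

/-- the labyrinth: `K + 1` circles, each with a gate, alternately on the right and on the left -/
def Bar (K : ℕ) : Set ℂ := {z | ∃ k ≤ K, ‖z‖ = rad K k ∧ sg k * z.re ≤ 3 / 10}

lemma sg_mul_self (k : ℕ) : sg k * sg k = 1 := by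
  unfold sg; rw [← mul_pow]; norm_num

lemma sg_succ (k : ℕ) : sg (k + 1) = - sg k := by
  unfold sg; rw [pow_succ]; ring

lemma abs_sg (k : ℕ) : |sg k| = 1 := by
  unfold sg; rw [abs_pow, abs_neg, abs_one, one_pow]

lemma rad_strictMono (K : ℕ) : StrictMono (rad K) := by
  intro a b hab
  unfold rad
  have : (a : ℝ) < b := by exact_mod_cast hab
  gcongr

lemma half_le_rad (K k : ℕ) : 1 / 2 ≤ rad K k := by
  unfold rad
  have : (0 : ℝ) ≤ k / (4 * (K + 1)) := by positivity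
  linarith

lemma rad_le (K k : ℕ) (hk : k ≤ K) : rad K k ≤ 3 / 4 := by
  unfold rad
  have h1 : (k : ℝ) ≤ K := by exact_mod_cast hk
  have h2 : (k : ℝ) / (4 * (K + 1)) ≤ 1 / 4 := by
    rw [div_le_div_iff₀ (by positivity) (by norm_num)]
    linarith
  linarith

lemma norm_le_of_mem (K : ℕ) {z : ℂ} (hz : z ∈ Bar K) : ‖z‖ ≤ 3 / 4 := by
  obtain ⟨k, hk, h1, _⟩ := hz
  rw [h1]; exact rad_le K k hk

lemma isCompact_Bar (K : ℕ) : IsCompact (Bar K) := by
  apply Metric.isCompact_of_isClosed_isBounded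
  · have : Bar K = ⋃ k ∈ Finset.range (K + 1), {z : ℂ | ‖z‖ = rad K k ∧ sg k * z.re ≤ 3 / 10} := by
      ext z
      simp only [Bar, mem_setOf_eq, Finset.mem_range, mem_iUnion, exists_prop, Nat.lt_succ_iff]
    rw [this]
    apply isClosed_biUnion_finset
    intro k _
    exact (isClosed_eq continuous_norm continuous_const).inter
      (isClosed_le (continuous_const.mul Complex.continuous_re) continuous_const)
  · exact (Metric.isBounded_closedBall (x := (0 : ℂ)) (r := 3 / 4)).subset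
      fun z hz => by simpa using norm_le_of_mem K hz

/-- intermediate radii -/
noncomputable def rho (K k : ℕ) : ℝ := rad K k + 1 / (8 * (K + 1))

lemma rad_lt_rho (K k : ℕ) : rad K k < rho K k := by
  unfold rho
  have : (0 : ℝ) < 1 / (8 * (K + 1)) := by positivity
  linarith

lemma rho_lt_rad (K k : ℕ) : rho K k < rad K (k + 1) := by
  unfold rho rad
  have h : (((k + 1 : ℕ) : ℝ)) / (4 * (K + 1)) = k / (4 * (K + 1)) + 2 * (1 / (8 * (K + 1))) := by
    push_cast; field_simp; ring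
  rw [h]
  have : (0 : ℝ) < 1 / (8 * (K + 1)) := by positivity
  linarith

lemma rho_pos (K k : ℕ) : 0 < rho K k := by
  have := half_le_rad K k
  have := rad_lt_rho K k
  linarith

lemma comp_of (K : ℕ) {T : Set ℂ} (hT : IsPreconnected T) (hTs : T ⊆ (Bar K)ᶜ) {x : ℂ}
    (hx : x ∈ T) (hx' : x ∈ connectedComponentIn (Bar K)ᶜ 0) :
    T ⊆ connectedComponentIn (Bar K)ᶜ 0 := by
  rw [connectedComponentIn_eq hx']
  exact hT.subset_connectedComponentIn hx hTs

lemma sphere_sub (K k : ℕ) (hk : k ≤ K) : Metric.sphere (0 : ℂ) (rho K k) ⊆ (Bar K)ᶜ := by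
  rintro z hz ⟨j, _, hj, _⟩
  have hz' : ‖z‖ = rho K k := by simpa using hz
  rw [hz'] at hj
  have h1 := rad_lt_rho K k
  have h2 := rho_lt_rad K k
  rw [hj] at h1 h2
  have h3 := (rad_strictMono K).lt_iff_lt.1 h1
  have h4 := (rad_strictMono K).lt_iff_lt.1 h2
  omega

lemma preconn_sphere (r : ℝ) : IsPreconnected (Metric.sphere (0 : ℂ) r) := by
  apply isPreconnected_sphere
  rw [Complex.rank_real_complex]
  norm_num

lemma seg_sub (K k : ℕ) (a : ℝ) (ha : 0 ≤ a) (hak : ∀ j, j < k → rad K j < a) :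
    (fun t : ℝ => ((sg k * t : ℝ) : ℂ)) '' Icc a (rho K k) ⊆ (Bar K)ᶜ := by
  rintro _ ⟨t, ht, rfl⟩ ⟨j, _, hj, hj2⟩
  have ht0 : 0 ≤ t := ha.trans ht.1
  have hn : ‖((sg k * t : ℝ) : ℂ)‖ = t := by
    rw [Complex.norm_real, Real.norm_eq_abs, abs_mul, abs_sg, one_mul, abs_of_nonneg ht0]
  rw [hn] at hj
  have h1 : j ≤ k := by
    by_contra h
    have h2 : rad K (k + 1) ≤ rad K j := (rad_strictMono K).monotone (by omega)
    have h3 := rho_lt_rad K k
    have h4 := ht.2
    linarith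
  have h2 : ¬ j < k := by
    intro h
    have h3 := hak j h
    have h4 := ht.1
    linarith
  have h3 : j = k := by omega
  subst h3
  rw [Complex.ofReal_re, ← mul_assoc, sg_mul_self, one_mul] at hj2
  have := half_le_rad K j
  linarith

lemma seg_preconn (k : ℕ) (a b : ℝ) :
    IsPreconnected ((fun t : ℝ => ((sg k * t : ℝ) : ℂ)) '' Icc a b) :=
  isPreconnected_Icc.image _ (by fun_prop)

lemma zero_notMem (K : ℕ) : (0 : ℂ) ∈ (Bar K)ᶜ := by
  rintro ⟨k, _, h, _⟩
  have := half_le_rad K k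
  rw [norm_zero] at h
  linarith

lemma sphere_comp (K k : ℕ) (hk : k ≤ K) :
    Metric.sphere (0 : ℂ) (rho K k) ⊆ connectedComponentIn (Bar K)ᶜ 0 := by
  have hmem : ∀ j : ℕ, ((sg j * rho K j : ℝ) : ℂ) ∈ Metric.sphere (0 : ℂ) (rho K j) := by
    intro j
    rw [mem_sphere_zero_iff_norm, Complex.norm_real, Real.norm_eq_abs, abs_mul, abs_sg, one_mul,
      abs_of_pos (rho_pos K j)]
  induction k with
  | zero =>
    have h1 := comp_of K (seg_preconn 0 0 (rho K 0)) (seg_sub K 0 0 le_rfl (by omega))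
      (x := 0) ⟨0, ⟨le_rfl, (rho_pos K 0).le⟩, by simp⟩ (mem_connectedComponentIn (zero_notMem K))
    exact comp_of K (preconn_sphere _) (sphere_sub K 0 hk) (hmem 0)
      (h1 ⟨rho K 0, ⟨(rho_pos K 0).le, le_rfl⟩, rfl⟩)
  | succ k ih =>
    have h0 := ih (by omega)
    have hlt : rho K k ≤ rho K (k + 1) := (rho_lt_rad K k).le.trans (rad_lt_rho K (k + 1)).le
    have h1 := comp_of K (seg_preconn (k + 1) (rho K k) (rho K (k + 1)))
      (seg_sub K (k + 1) (rho K k) (rho_pos K k).le (by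
        intro j hj
        exact ((rad_strictMono K).monotone (show j ≤ k by omega)).trans_lt (rad_lt_rho K k)))
      (x := ((sg (k + 1) * rho K k : ℝ) : ℂ)) ⟨rho K k, ⟨le_rfl, hlt⟩, rfl⟩
      (h0 (by
        rw [mem_sphere_zero_iff_norm, Complex.norm_real, Real.norm_eq_abs, abs_mul, abs_sg,
          one_mul, abs_of_pos (rho_pos K k)]))
    exact comp_of K (preconn_sphere _) (sphere_sub K (k + 1) hk) (hmem (k + 1))
      (h1 ⟨rho K (k + 1), ⟨hlt, le_rfl⟩, rfl⟩)

theorem unbounded_comp (K : ℕ) :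
    ¬ Bornology.IsBounded (connectedComponentIn (Bar K)ᶜ 0) := by
  intro hb
  have h1 := sphere_comp K K le_rfl
  have hray : (fun t : ℝ => (t : ℂ)) '' Ici (rho K K) ⊆ connectedComponentIn (Bar K)ᶜ 0 := by
    apply comp_of K (isPreconnected_Ici.image _ (by fun_prop)) _ (x := (rho K K : ℂ))
      ⟨rho K K, le_rfl, rfl⟩
    · apply h1
      rw [mem_sphere_zero_iff_norm, Complex.norm_real, Real.norm_eq_abs, abs_of_pos (rho_pos K K)]
    · rintro _ ⟨t, ht, rfl⟩ ⟨j, hjK, hj, _⟩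
      have ht' : rho K K ≤ t := ht
      rw [Complex.norm_real, Real.norm_eq_abs, abs_of_pos ((rho_pos K K).trans_le ht')] at hj
      have h2 := (rad_strictMono K).monotone hjK
      have h3 := rad_lt_rho K K
      linarith
  obtain ⟨C, hC⟩ := (hb.subset hray).exists_norm_le
  have h2 := hC ((max (rho K K) (C + 1) : ℝ) : ℂ) ⟨_, mem_Ici.2 (le_max_left _ _), rfl⟩
  rw [Complex.norm_real, Real.norm_eq_abs] at h2
  have h3 := le_abs_self (max (rho K K) (C + 1))
  have h4 := le_max_right (rho K K) (C + 1)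
  linarith

/-- crossing of an annulus -/
lemma crossing (g : ℝ → ℂ) (hg : Continuous g) (h0 : g 0 = 0) (h1 : ‖g 1‖ = 1) (a b : ℝ)
    (ha : 0 < a) (hab : a < b) (hb : b < 1) :
    ∃ s t : ℝ, 0 ≤ s ∧ s < t ∧ t ≤ 1 ∧ ‖g s‖ = a ∧ ‖g t‖ = b ∧
      ∀ u ∈ Ioo s t, a < ‖g u‖ ∧ ‖g u‖ < b := by
  have hn : Continuous fun t => ‖g t‖ := hg.norm
  have hT : IsCompact (Icc (0 : ℝ) 1 ∩ {u | ‖g u‖ = b}) :=
    isCompact_Icc.inter_right (isClosed_eq hn continuous_const)
  have hTn : (Icc (0 : ℝ) 1 ∩ {u | ‖g u‖ = b}).Nonempty := by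
    have := intermediate_value_Icc (show (0 : ℝ) ≤ 1 by norm_num) hn.continuousOn
    obtain ⟨u, hu, hu'⟩ := this (show b ∈ Icc ‖g 0‖ ‖g 1‖ by
      rw [h0, h1, norm_zero]; exact ⟨by linarith, hb.le⟩)
    exact ⟨u, hu, hu'⟩
  obtain ⟨t, ⟨⟨ht0, ht1⟩, htb⟩, htmin⟩ := hT.exists_isLeast hTn
  have htb' : ‖g t‖ = b := htb
  have hS : IsCompact (Icc (0 : ℝ) t ∩ {u | ‖g u‖ = a}) :=
    isCompact_Icc.inter_right (isClosed_eq hn continuous_const)
  have hSn : (Icc (0 : ℝ) t ∩ {u | ‖g u‖ = a}).Nonempty := by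
    have := intermediate_value_Icc ht0 hn.continuousOn
    obtain ⟨u, hu, hu'⟩ := this (show a ∈ Icc ‖g 0‖ ‖g t‖ by
      rw [h0, norm_zero, htb']; exact ⟨ha.le, hab.le⟩)
    exact ⟨u, hu, hu'⟩
  obtain ⟨s, ⟨⟨hs0, hst⟩, hsa⟩, hsmax⟩ := hS.exists_isGreatest hSn
  have hsa' : ‖g s‖ = a := hsa
  have hlt : s < t := by
    rcases hst.lt_or_eq with h | h
    · exact h
    · rw [h, htb'] at hsa'; linarith
  refine ⟨s, t, hs0, hlt, ht1, hsa', htb', fun u hu => ⟨?_, ?_⟩⟩
  · by_contra h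
    push Not at h
    have := intermediate_value_Icc hu.2.le hn.continuousOn
    obtain ⟨v, hv, hv'⟩ := this (show a ∈ Icc ‖g u‖ ‖g t‖ from ⟨h, by rw [htb']; exact hab.le⟩)
    have h2 := hsmax ⟨⟨hs0.trans (hu.1.le.trans hv.1), hv.2⟩, hv'⟩
    have h3 := hu.1
    have h4 := hv.1
    linarith
  · by_contra h
    push Not at h
    have hu0 : 0 ≤ u := hs0.trans hu.1.le
    have := intermediate_value_Icc hu0 hn.continuousOn
    obtain ⟨v, hv, hv'⟩ := this (show b ∈ Icc ‖g 0‖ ‖g u‖ from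
      ⟨by rw [h0, norm_zero]; linarith, h⟩)
    have h2 := htmin ⟨⟨hv.1, hv.2.trans (hu.2.le.trans ht1)⟩, hv'⟩
    have h3 := hu.2
    have h4 := hv.2
    linarith

/-- annuli between consecutive walls -/
def ann (K k : ℕ) : Set ℂ := {z | rad K k < ‖z‖ ∧ ‖z‖ < rad K (k + 1)}

lemma isOpen_ann (K k : ℕ) : IsOpen (ann K k) :=
  (isOpen_lt continuous_const continuous_norm).inter (isOpen_lt continuous_norm continuous_const)

lemma measure_ann (K k : ℕ) (hk : k < K) (g : ℝ → ℂ) (hg : Continuous g) (h0 : g 0 = 0)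
    (h1 : ‖g 1‖ = 1) (hB : ∀ t ∈ Icc (0 : ℝ) 1, g t ∉ Bar K) :
    ENNReal.ofReal (3 / 5) ≤ μH[1] (g '' Icc 0 1 ∩ ann K k) := by
  obtain ⟨s, t, hs0, hst, ht1, hs, ht, hmid⟩ := crossing g hg h0 h1 (rad K k) (rad K (k + 1))
    (by have := half_le_rad K k; linarith) (rad_strictMono K (Nat.lt_succ_self k))
    (by have := rad_le K (k + 1) hk; linarith)
  have hs2 : 3 / 10 < sg k * (g s).re := by
    by_contra h
    push Not at h
    exact hB s ⟨hs0, hst.le.trans ht1⟩ ⟨k, hk.le, hs, h⟩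
  have ht2 : sg k * (g t).re < -(3 / 10) := by
    by_contra h
    push Not at h
    refine hB t ⟨hs0.trans hst.le, ht1⟩ ⟨k + 1, hk, ht, ?_⟩
    rw [sg_succ]; linarith
  have hsub : Ioo (-(3 / 10) : ℝ) (3 / 10) ⊆ Complex.re '' (g '' Icc 0 1 ∩ ann K k) := by
    intro x hx
    have hc : ContinuousOn (fun u => sg k * (g u).re) (Icc s t) := by fun_prop
    have hx1 : sg k * x ∈ Icc (sg k * (g t).re) (sg k * (g s).re) := by
      have hab : |sg k * x| < 3 / 10 := by
        rw [abs_mul, abs_sg, one_mul]; exact abs_lt.2 hx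
      have := abs_lt.1 hab
      exact ⟨by linarith [this.1], by linarith [this.2]⟩
    obtain ⟨u, hu, hu'⟩ := intermediate_value_Icc' hst.le hc hx1
    have hu'' : sg k * (g u).re = sg k * x := hu'
    have hux : (g u).re = x := by
      have := congrArg (fun y => sg k * y) hu''
      simpa [← mul_assoc, sg_mul_self] using this
    have hxab : |sg k * x| < 3 / 10 := by
      rw [abs_mul, abs_sg, one_mul]; exact abs_lt.2 hx
    have hxab' := abs_lt.1 hxab
    have hus : s < u := by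
      rcases hu.1.lt_or_eq with h | h
      · exact h
      · rw [← h] at hu''; linarith
    have hut : u < t := by
      rcases hu.2.lt_or_eq with h | h
      · exact h
      · rw [h] at hu''; linarith
    exact ⟨g u, ⟨⟨u, ⟨hs0.trans hu.1, hu.2.trans ht1⟩, rfl⟩, hmid u ⟨hus, hut⟩⟩, hux⟩
  have hl : LipschitzOnWith 1 Complex.re (g '' Icc 0 1 ∩ ann K k) :=
    (LipschitzWith.of_dist_le_mul fun x y => by
      rw [NNReal.coe_one, one_mul, Real.dist_eq, ← Complex.sub_re, dist_eq_norm]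
      exact Complex.abs_re_le_norm _).lipschitzOnWith
  have h2 := hl.hausdorffMeasure_image_le (d := 1) zero_le_one
  rw [ENNReal.coe_one, ENNReal.one_rpow, one_mul] at h2
  refine le_trans ?_ h2
  refine le_trans ?_ (measure_mono hsub)
  rw [hausdorffMeasure_real, Real.volume_Ioo]
  apply ENNReal.ofReal_le_ofReal
  norm_num

theorem length_ge (K : ℕ) (g : ℝ → ℂ) (hg : Continuous g) (h0 : g 0 = 0)
    (h1 : ‖g 1‖ = 1) (hB : ∀ t ∈ Icc (0 : ℝ) 1, g t ∉ Bar K) :
    (K : ℝ≥0∞) * ENNReal.ofReal (3 / 5) ≤ μH[1] (g '' Icc 0 1) := by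
  have hmeas : ∀ k ∈ Finset.range K, MeasurableSet (g '' Icc 0 1 ∩ ann K k) := fun k _ =>
    ((isCompact_Icc.image hg).isClosed.measurableSet).inter (isOpen_ann K k).measurableSet
  have hdisj : Set.PairwiseDisjoint (↑(Finset.range K)) fun k => g '' Icc 0 1 ∩ ann K k := by
    intro i _ j _ hij
    rw [Function.onFun, Set.disjoint_left]
    rintro z ⟨_, hzi⟩ ⟨_, hzj⟩
    rcases lt_or_gt_of_ne hij with h | h
    · have h3 := (rad_strictMono K).monotone (show i + 1 ≤ j from h)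
      have h4 := hzi.2
      have h5 := hzj.1
      linarith
    · have h3 := (rad_strictMono K).monotone (show j + 1 ≤ i from h)
      have h4 := hzj.2
      have h5 := hzi.1
      linarith
  calc (K : ℝ≥0∞) * ENNReal.ofReal (3 / 5) = ∑ _k ∈ Finset.range K, ENNReal.ofReal (3 / 5) := by
        rw [Finset.sum_const, Finset.card_range, nsmul_eq_mul]
    _ ≤ ∑ k ∈ Finset.range K, μH[1] (g '' Icc 0 1 ∩ ann K k) :=
        Finset.sum_le_sum fun k hk => measure_ann K k (Finset.mem_range.1 hk) g hg h0 h1 hB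
    _ = μH[1] (⋃ k ∈ Finset.range K, (g '' Icc 0 1 ∩ ann K k)) :=
        (measure_biUnion_finset hdisj hmeas).symm
    _ ≤ μH[1] (g '' Icc 0 1) := measure_mono (iUnion₂_subset fun k _ => inter_subset_left)

end Pool.Agent.X170.Esc
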