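import Mathlib

set_option autoImplicit false

namespace Pool.Agent.X170.Esc

open Polynomial Set Filter Topology

/-- evaluation of the conjugate reversed polynomial -/
theorem eval_reflect (Q : ℂ[X]) (z : ℂ) (hz : z ≠ 0) :
    (reflect Q.natDegree (Q.map (starRingEnd ℂ))).eval z =
      z ^ Q.natDegree * (starRingEnd ℂ) (Q.eval ((starRingEnd ℂ) z⁻¹)) := by
  have hz' : z⁻¹ ≠ 0 := inv_ne_zero hz
  let _ : Invertible z⁻¹ := invertibleOfNonzero hz'
  have h := eval₂_reflect_mul_pow (RingHom.id ℂ) z⁻¹ Q.natDegree (Q.map (starRingEnd ℂ))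
    (natDegree_map_le)
  rw [invOf_eq_inv, inv_inv, eval₂_id, eval₂_id, eval_map] at h
  have h2 : Q.eval₂ (starRingEnd ℂ) z⁻¹ = (starRingEnd ℂ) (Q.eval ((starRingEnd ℂ) z⁻¹)) := by
    have := Polynomial.eval₂_at_apply (p := Q) (starRingEnd ℂ) ((starRingEnd ℂ) z⁻¹)
    rwa [Complex.conj_conj] at this
  rw [h2] at h
  rw [← h, inv_pow]
  field_simp

/-- If `Q` has no zero in the closed unit disc, then inside the disc the conjugate reversed
polynomial is bounded by `Q`. -/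
theorem norm_reflect_le (Q : ℂ[X]) (hQ : ∀ z : ℂ, ‖z‖ ≤ 1 → Q.eval z ≠ 0) (z : ℂ) (hz : ‖z‖ ≤ 1) :
    ‖(reflect Q.natDegree (Q.map (starRingEnd ℂ))).eval z‖ ≤ ‖Q.eval z‖ := by
  set R := reflect Q.natDegree (Q.map (starRingEnd ℂ)) with hR
  have hd : DiffContOnCl ℂ (fun z => R.eval z / Q.eval z) (Metric.ball (0 : ℂ) 1) := by
    apply DifferentiableOn.diffContOnCl
    rw [closure_ball _ one_ne_zero]
    intro w hw
    have hw' : ‖w‖ ≤ 1 := by simpa using hw
    exact ((R.differentiable w).div (Q.differentiable w) (hQ w hw')).differentiableWithinAt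
  have hfr : ∀ w ∈ frontier (Metric.ball (0 : ℂ) 1), ‖R.eval w / Q.eval w‖ ≤ 1 := by
    intro w hw
    rw [frontier_ball _ one_ne_zero] at hw
    have hw1 : ‖w‖ = 1 := by simpa using hw
    have hw0 : w ≠ 0 := by
      intro h; rw [h, norm_zero] at hw1; exact zero_ne_one hw1
    have hconj : (starRingEnd ℂ) w⁻¹ = w := by
      rw [Complex.inv_def, Complex.normSq_eq_norm_sq, hw1]
      simp
    rw [hR, eval_reflect Q w hw0, hconj, norm_div, norm_mul, norm_pow, hw1, one_pow, one_mul,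
      RCLike.norm_conj, div_self (norm_ne_zero_iff.2 (hQ w hw1.le))]
  have h := Complex.norm_le_of_forall_mem_frontier_norm_le (U := Metric.ball (0 : ℂ) 1)
    (f := fun z => R.eval z / Q.eval z) (C := 1) Metric.isBounded_ball hd hfr (z := z)
    (by rw [closure_ball _ one_ne_zero]; simpa using hz)
  have h' : ‖R.eval z‖ / ‖Q.eval z‖ ≤ 1 := by simpa [norm_div] using h
  rwa [div_le_one (norm_pos_iff.2 (hQ z hz))] at h'

/-- The polynomials `Q + X ^ (k + 1) * Q^*` are monic with all zeros on the unit circle. -/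
theorem selfInversive (Q : ℂ[X]) (hQ : ∀ z : ℂ, ‖z‖ ≤ 1 → Q.eval z ≠ 0) (h0 : Q.coeff 0 = 1)
    (k : ℕ) (z : ℂ)
    (hz : (Q + X ^ (k + 1) * reflect Q.natDegree (Q.map (starRingEnd ℂ))).eval z = 0) :
    ‖z‖ = 1 := by
  have hin : ∀ w : ℂ, ‖w‖ < 1 →
      ‖w ^ (k + 1) * (reflect Q.natDegree (Q.map (starRingEnd ℂ))).eval w‖ < ‖Q.eval w‖ := by
    intro w hw
    have h1 := norm_reflect_le Q hQ w hw.le
    have h2 : 0 < ‖Q.eval w‖ := norm_pos_iff.2 (hQ w hw.le)
    rw [norm_mul, norm_pow]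
    have h3 : ‖w‖ ^ (k + 1) < 1 := pow_lt_one₀ (norm_nonneg _) hw (by omega)
    nlinarith [norm_nonneg ((reflect Q.natDegree (Q.map (starRingEnd ℂ))).eval w),
      pow_nonneg (norm_nonneg w) (k + 1)]
  rw [eval_add, eval_mul, eval_pow, eval_X] at hz
  rcases lt_trichotomy ‖z‖ 1 with h | h | h
  · exfalso
    have h1 := hin z h
    have h2 : Q.eval z = -(z ^ (k + 1) * (reflect Q.natDegree (Q.map (starRingEnd ℂ))).eval z) :=
      eq_neg_of_add_eq_zero_left hz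
    rw [h2, norm_neg] at h1
    exact lt_irrefl _ h1
  · exact h
  · exfalso
    have hz0 : z ≠ 0 := by
      intro h'; rw [h', norm_zero] at h; linarith
    set w := (starRingEnd ℂ) z⁻¹ with hw
    have hwn : ‖w‖ = ‖z‖⁻¹ := by rw [hw, RCLike.norm_conj, norm_inv]
    have hw1 : ‖w‖ < 1 := by rw [hwn]; exact inv_lt_one_of_one_lt₀ h
    have hw0 : w ≠ 0 := by
      rw [hw]; exact (_root_.map_ne_zero _).2 (inv_ne_zero hz0)
    have hwz : (starRingEnd ℂ) w⁻¹ = z := by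
      rw [hw, ← map_inv₀, inv_inv, Complex.conj_conj]
    have e1 : (reflect Q.natDegree (Q.map (starRingEnd ℂ))).eval z =
        z ^ Q.natDegree * (starRingEnd ℂ) (Q.eval w) := eval_reflect Q z hz0
    have e2 : (reflect Q.natDegree (Q.map (starRingEnd ℂ))).eval w =
        w ^ Q.natDegree * (starRingEnd ℂ) (Q.eval z) := by
      rw [eval_reflect Q w hw0, hwz]
    have h1 := hin w hw1
    have e3 : ‖(starRingEnd ℂ) (Q.eval z)‖ = ‖Q.eval z‖ := by rw [RCLike.norm_conj]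
    rw [e2, norm_mul, norm_mul, norm_pow, norm_pow, e3] at h1
    have h2 : ‖Q.eval z‖ = ‖z‖ ^ (k + 1) * (‖z‖ ^ Q.natDegree * ‖Q.eval w‖) := by
      have : Q.eval z = -(z ^ (k + 1) * (z ^ Q.natDegree * (starRingEnd ℂ) (Q.eval w))) := by
        rw [← e1]; exact eq_neg_of_add_eq_zero_left hz
      rw [this, norm_neg, norm_mul, norm_mul, norm_pow, norm_pow, RCLike.norm_conj]
    rw [h2, hwn, inv_pow, inv_pow] at h1
    have hzp : 0 < ‖z‖ := norm_pos_iff.2 hz0
    have h3 : (‖z‖ ^ (k + 1))⁻¹ * ((‖z‖ ^ Q.natDegree)⁻¹ *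
        (‖z‖ ^ (k + 1) * (‖z‖ ^ Q.natDegree * ‖Q.eval w‖))) = ‖Q.eval w‖ := by
      field_simp
    rw [h3] at h1
    exact lt_irrefl _ h1

theorem natDegree_F (Q : ℂ[X]) (h0 : Q.coeff 0 = 1) (k : ℕ) :
    (Q + X ^ (k + 1) * reflect Q.natDegree (Q.map (starRingEnd ℂ))).Monic ∧
    (Q + X ^ (k + 1) * reflect Q.natDegree (Q.map (starRingEnd ℂ))).natDegree =
      Q.natDegree + (k + 1) := by
  set R := reflect Q.natDegree (Q.map (starRingEnd ℂ)) with hR
  have hRd : R.natDegree ≤ Q.natDegree := by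
    have := natDegree_reflect_le (N := Q.natDegree) (p := Q.map (starRingEnd ℂ))
    refine this.trans ?_
    exact max_le le_rfl natDegree_map_le
  have hRc : R.coeff Q.natDegree = 1 := by
    rw [hR, coeff_reflect, revAt_le le_rfl, Nat.sub_self, coeff_map, h0, map_one]
  have hdeg : (Q + X ^ (k + 1) * R).natDegree ≤ Q.natDegree + (k + 1) := by
    refine (natDegree_add_le _ _).trans (max_le (by omega) ?_)
    refine (natDegree_mul_le).trans ?_
    rw [natDegree_X_pow]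
    omega
  have hcoeff : (Q + X ^ (k + 1) * R).coeff (Q.natDegree + (k + 1)) = 1 := by
    rw [coeff_add, coeff_X_pow_mul, hRc, coeff_eq_zero_of_natDegree_lt (by omega), zero_add]
  exact ⟨monic_of_natDegree_le_of_coeff_eq_one _ hdeg hcoeff,
    natDegree_eq_of_le_of_coeff_ne_zero hdeg (by rw [hcoeff]; exact one_ne_zero)⟩

/-- From an approximation of `1 / z` on `B` to polynomials with all zeros on the unit circle which
are larger than one on `B`. -/
theorem exists_poly (B : Set ℂ) (r : ℝ) (hr0 : 0 ≤ r) (hr : r < 1) (hB : ∀ z ∈ B, ‖z‖ ≤ r)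
    (P : ℂ[X]) (hP : ∀ z ∈ B, ‖z * P.eval z - 1‖ ≤ 1 / 2) :
    ∀ᶠ N : ℕ in atTop, ∃ f : ℂ[X], f.Monic ∧ f.natDegree = N ∧ (∀ z, f.eval z = 0 → ‖z‖ = 1) ∧
      ∀ z ∈ B, 1 < ‖f.eval z‖ := by
  obtain ⟨C, hC⟩ := (isCompact_closedBall (0 : ℂ) 1).exists_bound_of_continuousOn
    (f := fun z => z * P.eval z) (by fun_prop)
  set δ : ℝ := 1 / (2 * (|C| + 1)) with hδ
  have hδ0 : 0 < δ := by positivity
  set Q : ℂ[X] := 1 + Polynomial.C (δ : ℂ) * (X * P) with hQdef
  have hQe : ∀ z, Q.eval z = 1 + δ * (z * P.eval z) := by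
    intro z; rw [hQdef]; simp
  have hsmall : ∀ z : ℂ, ‖z‖ ≤ 1 → ‖(δ : ℂ) * (z * P.eval z)‖ ≤ 1 / 2 := by
    intro z hz
    have h1 : ‖z * P.eval z‖ ≤ |C| := (hC z (by simpa using hz)).trans (le_abs_self C)
    rw [norm_mul, Complex.norm_real, Real.norm_eq_abs, abs_of_pos hδ0]
    calc δ * ‖z * P.eval z‖ ≤ δ * |C| := by gcongr
      _ ≤ 1 / 2 := by
        rw [hδ, one_div_mul_eq_div, div_le_div_iff₀ (by positivity) (by norm_num)]
        linarith [abs_nonneg C]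
  have hQ0 : ∀ z : ℂ, ‖z‖ ≤ 1 → Q.eval z ≠ 0 := by
    intro z hz h
    rw [hQe] at h
    have h1 : (1 : ℂ) = -((δ : ℂ) * (z * P.eval z)) := eq_neg_of_add_eq_zero_left h
    have h2 := hsmall z hz
    have h3 : ‖(1 : ℂ)‖ = ‖(δ : ℂ) * (z * P.eval z)‖ := by
      conv_lhs => rw [h1]
      rw [norm_neg]
    rw [norm_one] at h3
    linarith
  have hQc : Q.coeff 0 = 1 := by
    rw [hQdef]; simp
  have hQB : ∀ z ∈ B, 1 + δ / 2 ≤ ‖Q.eval z‖ := by
    intro z hz
    have h1 : |(z * P.eval z - 1).re| ≤ 1 / 2 := (Complex.abs_re_le_norm _).trans (hP z hz)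
    have h2 : (1 / 2 : ℝ) ≤ (z * P.eval z).re := by
      have := (abs_le.1 h1).1
      simp only [Complex.sub_re, Complex.one_re] at this
      linarith
    have h3 : (Q.eval z).re = 1 + δ * (z * P.eval z).re := by
      rw [hQe, Complex.add_re, Complex.one_re, Complex.re_ofReal_mul]
    calc 1 + δ / 2 ≤ (Q.eval z).re := by rw [h3]; nlinarith
      _ ≤ ‖Q.eval z‖ := Complex.re_le_norm _
  set R := reflect Q.natDegree (Q.map (starRingEnd ℂ)) with hR
  obtain ⟨C', hC'⟩ := (isCompact_closedBall (0 : ℂ) 1).exists_bound_of_continuousOn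
    (f := fun z => R.eval z) (by fun_prop)
  have hlim : Tendsto (fun k : ℕ => r ^ (k + 1) * |C'|) atTop (𝓝 0) := by
    have h1 : Tendsto (fun k : ℕ => r ^ (k + 1)) atTop (𝓝 0) :=
      (tendsto_add_atTop_iff_nat 1).2 (tendsto_pow_atTop_nhds_zero_of_lt_one hr0 hr)
    simpa using h1.mul_const |C'|
  obtain ⟨k0, hk0⟩ := eventually_atTop.1 (hlim.eventually (gt_mem_nhds (show 0 < δ / 2 by positivity)))
  refine eventually_atTop.2 ⟨Q.natDegree + (k0 + 1), fun N hN => ?_⟩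
  obtain ⟨k, hk, rfl⟩ : ∃ k, k0 ≤ k ∧ N = Q.natDegree + (k + 1) :=
    ⟨N - Q.natDegree - 1, by omega, by omega⟩
  obtain ⟨hm, hd⟩ := natDegree_F Q hQc k
  refine ⟨_, hm, hd, fun z hz => selfInversive Q hQ0 hQc k z hz, fun z hz => ?_⟩
  rw [eval_add, eval_mul, eval_pow, eval_X]
  have hz1 : ‖z‖ ≤ 1 := (hB z hz).trans hr.le
  have h1 : ‖z ^ (k + 1) * R.eval z‖ ≤ r ^ (k + 1) * |C'| := by
    rw [norm_mul, norm_pow]
    have h2 : ‖R.eval z‖ ≤ |C'| := (hC' z (by simpa using hz1)).trans (le_abs_self _)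
    have h3 : ‖z‖ ^ (k + 1) ≤ r ^ (k + 1) := pow_le_pow_left₀ (norm_nonneg _) (hB z hz) _
    exact mul_le_mul h3 h2 (norm_nonneg _) (by positivity)
  have h4 := hk0 k hk
  have h5 := norm_sub_norm_le (Q.eval z) (-(z ^ (k + 1) * R.eval z))
  rw [sub_neg_eq_add, norm_neg] at h5
  have h6 := hQB z hz
  linarith

end Pool.Agent.X170.Esc
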