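import Mathlib

set_option autoImplicit false

namespace Pool.Agent.X170.Esc

open Polynomial Set

/-- A consequence of Runge's theorem: if `0` lies in the unbounded part of the complement of the
compact set `B`, then `1 / z` can be approximated on `B` by polynomials. -/
theorem runge_pt (B : Set ℂ) (hB : IsCompact B)
    (hu : ¬ Bornology.IsBounded (connectedComponentIn Bᶜ 0)) :
    ∃ P : ℂ[X], ∀ z ∈ B, ‖z * P.eval z - 1‖ ≤ 1 / 2 := by
  classical
  have : CompactSpace B := isCompact_iff_compactSpace.mp hB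
  let x : C(B, ℂ) := ⟨Subtype.val, continuous_subtype_val⟩
  let S := Algebra.elemental ℂ x
  have hSc : IsClosed (S : Set C(B, ℂ)) := Algebra.elemental.isClosed ℂ x
  let xs : S := ⟨x, Algebra.elemental.self_mem ℂ x⟩
  have hspec : spectrum ℂ (xs : C(B, ℂ)) = B := by
    have h1 : spectrum ℂ x = Set.range x := ContinuousMap.spectrum_eq_range x
    have h2 : Set.range x = B := by
      show Set.range (Subtype.val : B → ℂ) = B
      exact Subtype.range_coe
    rw [h2] at h1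
    exact h1
  have h0s : (0 : ℂ) ∉ spectrum ℂ xs := by
    intro h
    apply hu
    have := Subalgebra.spectrum_isBounded_connectedComponentIn (𝕜 := ℂ) S xs h
    rwa [hspec] at this
  rw [spectrum.zero_notMem_iff] at h0s
  obtain ⟨u, hu'⟩ := h0s
  have hy : ((↑u⁻¹ : S) : C(B, ℂ)) ∈ closure ((Algebra.adjoin ℂ {x} : Subalgebra ℂ C(B, ℂ)) :
      Set C(B, ℂ)) := (↑u⁻¹ : S).2
  obtain ⟨R, hR⟩ := hB.isBounded.exists_norm_le
  have hR0 : 0 < |R| + 1 := by positivity
  obtain ⟨b, hb, hdist⟩ := Metric.mem_closure_iff.1 hy (1 / (2 * (|R| + 1))) (by positivity)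
  have hb' : b ∈ Algebra.adjoin ℂ {x} := hb
  rw [Algebra.adjoin_singleton_eq_range_aeval] at hb'
  obtain ⟨p, hp⟩ := hb'
  refine ⟨p, fun z hz => ?_⟩
  have hxu : x * ((↑u⁻¹ : S) : C(B, ℂ)) = 1 := by
    have h1 : xs * (↑u⁻¹ : S) = 1 := by rw [← hu']; exact u.mul_inv
    exact congrArg Subtype.val h1
  have hz1 : z * ((↑u⁻¹ : S) : C(B, ℂ)) ⟨z, hz⟩ = 1 := by
    have := congrArg (fun f : C(B, ℂ) => f ⟨z, hz⟩) hxu
    exact this
  have hpz : b ⟨z, hz⟩ = p.eval z := by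
    rw [← hp]
    show (aeval x p) ⟨z, hz⟩ = _
    rw [Polynomial.aeval_continuousMap_apply]
    rfl
  have hd : ‖((↑u⁻¹ : S) : C(B, ℂ)) ⟨z, hz⟩ - p.eval z‖ ≤ 1 / (2 * (|R| + 1)) := by
    rw [← hpz, ← dist_eq_norm]
    exact (ContinuousMap.dist_apply_le_dist _).trans hdist.le
  have hzR : ‖z‖ ≤ |R| := (hR z hz).trans (le_abs_self R)
  calc ‖z * p.eval z - 1‖ = ‖z‖ * ‖((↑u⁻¹ : S) : C(B, ℂ)) ⟨z, hz⟩ - p.eval z‖ := by
        rw [← norm_mul, mul_sub, hz1, norm_sub_rev]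
    _ ≤ |R| * (1 / (2 * (|R| + 1))) := by gcongr
    _ ≤ 1 / 2 := by
        rw [mul_one_div, div_le_div_iff₀ (by positivity) (by norm_num)]
        linarith [abs_nonneg R]

end Pool.Agent.X170.Esc
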