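import Mathlib

set_option autoImplicit false

namespace Pool.Agent.X170.Esc

open Polynomial Set Filter Topology MeasureTheory
open scoped ENNReal NNReal

/-- global solutions of autonomous equations with a bounded Lipschitz field -/
lemma ode_exists (V : ℂ → ℂ) (K : ℝ≥0) (hK : LipschitzWith K V) (L : ℝ≥0) (hL : ∀ z, ‖V z‖ ≤ L)
    (z0 : ℂ) (T : ℝ) (hT : 0 ≤ T) :
    ∃ α : ℝ → ℂ, α 0 = z0 ∧ ∀ t ∈ Icc 0 T, HasDerivWithinAt α (V (α t)) (Icc 0 T) t := by
  have h := IsPicardLindelof.of_time_independent (f := V) (tmin := 0) (tmax := T)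
    (t₀ := ⟨0, le_rfl, hT⟩) (x₀ := z0) (a := L * ⟨T, hT⟩) (r := 0) (L := L) (K := K)
    (fun x _ => hL x) (hK.lipschitzOnWith) (by
      simp only [sub_zero, sub_self, NNReal.coe_zero]
      rw [max_eq_left hT]
      exact (NNReal.coe_mul L ⟨T, hT⟩).ge)
  obtain ⟨α, h1, h2⟩ := h.exists_eq_forall_mem_Icc_hasDerivWithinAt₀
  exact ⟨α, h1, h2⟩

/-- the flow `γ' = - w₀ * conj (g' γ)` moves `g` straight towards zero -/
lemma flow_facts (g : ℂ[X]) (w0 : ℂ) (hw0 : w0 ≠ 0) (T : ℝ) (hT : 0 ≤ T) (α : ℝ → ℂ)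
    (h0 : g.eval (α 0) = w0)
    (hα : ∀ t ∈ Icc 0 T, HasDerivWithinAt α
      (-w0 * (starRingEnd ℂ) ((derivative g).eval (α t))) (Icc 0 T) t)
    (hnz : ∀ t ∈ Icc 0 T, g.eval (α t) ≠ 0) :
    (∀ t ∈ Icc 0 T, ∃ s : ℝ, 0 < s ∧ s ≤ 1 ∧ g.eval (α t) = s * w0) ∧
    (∀ c : ℝ, (∀ t ∈ Icc 0 T, c ≤ ‖(derivative g).eval (α t)‖ ^ 2) → c * T < 1) ∧
    ((∀ t ∈ Icc 0 T, (derivative g).eval (α t) ≠ 0) → InjOn α (Icc 0 T)) := by
  set u : ℝ → ℂ := fun t => g.eval (α t) / w0 with hu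
  have hud : ∀ t ∈ Icc 0 T, HasDerivWithinAt u
      (((-‖(derivative g).eval (α t)‖ ^ 2 : ℝ)) : ℂ) (Icc 0 T) t := by
    intro t ht
    have h1 : HasDerivWithinAt (fun t => g.eval (α t))
        ((derivative g).eval (α t) * (-w0 * (starRingEnd ℂ) ((derivative g).eval (α t))))
        (Icc 0 T) t := (g.hasDerivAt (α t)).comp_hasDerivWithinAt t (hα t ht)
    have h2 := h1.div_const w0
    refine h2.congr_deriv ?_
    have h3 : (derivative g).eval (α t) * (starRingEnd ℂ) ((derivative g).eval (α t)) =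
        ((‖(derivative g).eval (α t)‖ ^ 2 : ℝ) : ℂ) := by
      rw [Complex.mul_conj, Complex.normSq_eq_norm_sq]
    have h4 : (((-‖(derivative g).eval (α t)‖ ^ 2 : ℝ)) : ℂ) =
        -((derivative g).eval (α t) * (starRingEnd ℂ) ((derivative g).eval (α t))) := by
      rw [h3]; push_cast; ring
    rw [h4]
    field_simp
  have him : ∀ t ∈ Icc 0 T, (u t).im = 0 := by
    intro t ht
    have hd : ∀ s ∈ Icc 0 T, HasDerivWithinAt (fun s => (u s).im) 0 (Icc 0 T) s := by
      intro s hs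
      have h1 : HasDerivWithinAt (fun s => (u s).im)
          ((((-‖(derivative g).eval (α s)‖ ^ 2 : ℝ)) : ℂ).im) (Icc 0 T) s :=
        (Complex.imCLM.hasFDerivAt (x := u s)).comp_hasDerivWithinAt s (hud s hs)
      rwa [Complex.ofReal_im] at h1
    have h1 := (convex_Icc 0 T).norm_image_sub_le_of_norm_hasDerivWithin_le (C := 0) hd
      (fun s _ => by simp) (left_mem_Icc.2 hT) ht
    have h2 : (u 0).im = 0 := by
      rw [hu]; dsimp only; rw [h0, div_self hw0]; simp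
    rw [zero_mul, norm_le_zero_iff, h2, sub_zero] at h1
    exact h1
  have hred : ∀ s ∈ Icc 0 T, HasDerivWithinAt (fun s => (u s).re)
      (-‖(derivative g).eval (α s)‖ ^ 2) (Icc 0 T) s := by
    intro s hs
    have h1 : HasDerivWithinAt (fun s => (u s).re)
        ((((-‖(derivative g).eval (α s)‖ ^ 2 : ℝ)) : ℂ).re) (Icc 0 T) s :=
      (Complex.reCLM.hasFDerivAt (x := u s)).comp_hasDerivWithinAt s (hud s hs)
    rwa [Complex.ofReal_re] at h1
  have hre0 : (u 0).re = 1 := by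
    rw [hu]; dsimp only; rw [h0, div_self hw0]; simp
  have hrec : ContinuousOn (fun s => (u s).re) (Icc 0 T) := fun s hs =>
    (hred s hs).continuousWithinAt
  have hint : ∀ s ∈ interior (Icc 0 T), HasDerivAt (fun s => (u s).re)
      (-‖(derivative g).eval (α s)‖ ^ 2) s := by
    intro s hs
    have h1 : Icc 0 T ∈ 𝓝 s := mem_interior_iff_mem_nhds.1 hs
    exact (hred s (interior_subset hs)).hasDerivAt h1
  have hanti : AntitoneOn (fun s => (u s).re) (Icc 0 T) := by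
    apply antitoneOn_of_deriv_nonpos (convex_Icc 0 T) hrec
    · intro s hs; exact (hint s hs).differentiableAt.differentiableWithinAt
    · intro s hs
      rw [(hint s hs).deriv]
      have := sq_nonneg ‖(derivative g).eval (α s)‖
      linarith
  have hgu : ∀ t, g.eval (α t) = u t * w0 := by
    intro t; rw [hu]; dsimp only; field_simp
  have hpos : ∀ t ∈ Icc 0 T, 0 < (u t).re := by
    intro t ht
    by_contra h
    push Not at h
    have hsub : Icc 0 t ⊆ Icc 0 T := Icc_subset_Icc le_rfl ht.2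
    obtain ⟨s, hs, hs'⟩ := intermediate_value_Icc' ht.1 (hrec.mono hsub)
      (show (0 : ℝ) ∈ Icc (u t).re (u 0).re from ⟨h, by rw [hre0]; exact zero_le_one⟩)
    apply hnz s (hsub hs)
    rw [hgu, Complex.ext (z := u s) (w := 0) hs' (him s (hsub hs)), zero_mul]
  have hreal : ∀ t ∈ Icc 0 T, u t = ((u t).re : ℂ) := by
    intro t ht
    exact Complex.ext (by simp) (by rw [him t ht]; simp)
  refine ⟨fun t ht => ⟨(u t).re, hpos t ht, ?_, ?_⟩, ?_, ?_⟩
  · have := hanti (left_mem_Icc.2 hT) ht ht.1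
    rw [← hre0]; exact this
  · rw [← hreal t ht]; exact hgu t
  · intro c hc
    have h1 : AntitoneOn (fun s => (u s).re + c * s) (Icc 0 T) := by
      apply antitoneOn_of_deriv_nonpos (convex_Icc 0 T) (by fun_prop)
      · intro s hs
        exact ((hint s hs).add ((hasDerivAt_id s).const_mul c)).differentiableAt.differentiableWithinAt
      · intro s hs
        have h2 := (hint s hs).add ((hasDerivAt_id s).const_mul c)
        have h3 : deriv (fun s => (u s).re + c * s) s =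
            -‖(derivative g).eval (α s)‖ ^ 2 + c * 1 := h2.deriv
        rw [h3]
        have := hc s (interior_subset hs)
        linarith
    have h2 := h1 (left_mem_Icc.2 hT) (right_mem_Icc.2 hT) hT
    simp only [mul_zero, add_zero] at h2
    have h3 := hpos T (right_mem_Icc.2 hT)
    rw [hre0] at h2
    linarith
  · intro hne
    have hs : StrictAntiOn (fun s => (u s).re) (Icc 0 T) := by
      apply strictAntiOn_of_deriv_neg (convex_Icc 0 T) hrec
      intro s hs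
      rw [(hint s hs).deriv]
      have := norm_pos_iff.2 (hne s (interior_subset hs))
      have := pow_pos this 2
      linarith
    intro a ha b hb hab
    apply hs.injOn ha hb
    show (u a).re = (u b).re
    rw [hu]; dsimp only; rw [hab]

/-- the descending path up to radius `r` -/
theorem exists_path (g : ℂ[X]) (z0 : ℂ) (r : ℝ) (hr : r < 1) (hz0 : ‖z0‖ < r)
    (hg : ∀ z, ‖z‖ < 1 → g.eval z ≠ 0)
    (hcrit : ∀ z, ‖z‖ < 1 → (derivative g).eval z = 0 →
      ∀ s : ℝ, 0 < s → s ≤ 1 → g.eval z ≠ s * g.eval z0) :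
    ∃ (T : ℝ) (γ : ℝ → ℂ), 0 ≤ T ∧ ContinuousOn γ (Icc 0 T) ∧ γ 0 = z0 ∧ ‖γ T‖ = r ∧
      (∀ t ∈ Icc 0 T, ‖γ t‖ ≤ r) ∧ InjOn γ (Icc 0 T) ∧
      ∀ t ∈ Icc 0 T, ∃ s : ℝ, 0 < s ∧ s ≤ 1 ∧ g.eval (γ t) = s * g.eval z0 := by
  set w0 := g.eval z0 with hw0def
  have hw0 : w0 ≠ 0 := hg z0 (hz0.trans hr)
  set D : Set ℂ := {z | ‖z‖ ≤ r ∧ (g.eval z / w0).im = 0 ∧ 0 ≤ (g.eval z / w0).re ∧
    (g.eval z / w0).re ≤ 1} with hD
  have hgc : Continuous fun z : ℂ => g.eval z / w0 := by fun_prop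
  have hDc : IsCompact D := by
    apply Metric.isCompact_of_isClosed_isBounded
    · exact (isClosed_le continuous_norm continuous_const).inter
        ((isClosed_eq (Complex.continuous_im.comp hgc) continuous_const).inter
        ((isClosed_le continuous_const (Complex.continuous_re.comp hgc)).inter
        (isClosed_le (Complex.continuous_re.comp hgc) continuous_const)))
    · exact (Metric.isBounded_closedBall (x := (0 : ℂ)) (r := r)).subset
        fun z hz => by simpa using hz.1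
  have hDmem : ∀ z : ℂ, ‖z‖ ≤ r → (∃ s : ℝ, 0 < s ∧ s ≤ 1 ∧ g.eval z = s * w0) → z ∈ D := by
    rintro z hz ⟨s, hs0, hs1, hs⟩
    have h1 : g.eval z / w0 = (s : ℂ) := by rw [hs]; field_simp
    refine ⟨hz, ?_, ?_, ?_⟩
    · rw [h1]; simp
    · rw [h1]; simpa using hs0.le
    · rw [h1]; simpa using hs1
  have hDne : ∀ z ∈ D, (derivative g).eval z ≠ 0 := by
    rintro z ⟨h1, h2, h3, h4⟩ h
    have hz1 : ‖z‖ < 1 := h1.trans_lt hr
    have h5 : g.eval z / w0 = ((g.eval z / w0).re : ℂ) := Complex.ext (by simp) (by rw [h2]; simp)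
    have h6 : g.eval z = ((g.eval z / w0).re : ℂ) * w0 := by
      rw [← h5]; field_simp
    have h7 : 0 < (g.eval z / w0).re := by
      rcases h3.lt_or_eq with h' | h'
      · exact h'
      · exfalso
        apply hg z hz1
        rw [h6, ← h']; simp
    exact hcrit z hz1 h _ h7 h4 h6
  have hz0D : z0 ∈ D := hDmem z0 hz0.le ⟨1, one_pos, le_rfl, by simp [hw0def]⟩
  obtain ⟨m, hm, hmin⟩ := hDc.exists_isMinOn ⟨z0, hz0D⟩
    (f := fun z => ‖(derivative g).eval z‖ ^ 2) (by fun_prop)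
  set c : ℝ := ‖(derivative g).eval m‖ ^ 2 with hc
  have hc0 : 0 < c := pow_pos (norm_pos_iff.2 (hDne m hm)) 2
  have hcle : ∀ z ∈ D, c ≤ ‖(derivative g).eval z‖ ^ 2 := fun z hz => hmin hz
  set T0 : ℝ := 1 / c with hT0
  have hT0p : 0 ≤ T0 := by positivity
  -- the cut-off field
  let φ : ContDiffBump (0 : ℂ) := ⟨1, 2, one_pos, one_lt_two⟩
  set F : ℂ → ℂ := fun z => -w0 * (starRingEnd ℂ) ((derivative g).eval z) with hF
  have hFc : ContDiff ℝ 1 F := by
    have h1 : ContDiff ℝ 1 fun z : ℂ => (derivative g).eval z :=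
      ((derivative g).differentiable.contDiff).restrict_scalars ℝ
    have h2 : ContDiff ℝ 1 fun z : ℂ => (starRingEnd ℂ) ((derivative g).eval z) :=
      Complex.conjCLE.contDiff.comp h1
    exact contDiff_const.mul h2
  set V : ℂ → ℂ := fun z => (φ z) • F z with hV
  have hVc : ContDiff ℝ 1 V := φ.contDiff.smul hFc
  have hVs : HasCompactSupport V := φ.hasCompactSupport.smul_right
  obtain ⟨K, hK⟩ := hVc.lipschitzWith_of_hasCompactSupport hVs one_ne_zero
  obtain ⟨L, hL⟩ := hVc.continuous.bounded_above_of_compact_support hVs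
  have hVF : ∀ z : ℂ, ‖z‖ ≤ 1 → V z = F z := by
    intro z hz
    have h1 : φ z = 1 := φ.one_of_mem_closedBall (by simpa using hz)
    rw [hV]; dsimp only; rw [h1, one_smul]
  obtain ⟨α, hα0, hα⟩ := ode_exists V K hK ⟨|L|, abs_nonneg L⟩
    (fun z => (hL z).trans (le_abs_self L)) z0 T0 hT0p
  have hαc : ContinuousOn α (Icc 0 T0) := fun t ht => (hα t ht).continuousWithinAt
  have hαn : ContinuousOn (fun t => ‖α t‖) (Icc 0 T0) := hαc.norm
  have hex : ∃ t ∈ Icc 0 T0, r ≤ ‖α t‖ := by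
    by_contra hcon
    push Not at hcon
    have hfl := flow_facts g w0 hw0 T0 hT0p α (by rw [hα0]) (fun t ht => by
      have h1 := hα t ht
      rwa [hVF _ ((hcon t ht).le.trans hr.le)] at h1)
      (fun t ht => hg _ ((hcon t ht).trans hr))
    have h2 := hfl.2.1 c (fun t ht => hcle _ (hDmem _ (hcon t ht).le (hfl.1 t ht)))
    rw [hT0, mul_one_div_cancel hc0.ne'] at h2
    exact lt_irrefl _ h2
  obtain ⟨t2, ht2, ht2r⟩ := hex
  have hS : IsCompact (Icc 0 T0 ∩ (fun t => ‖α t‖) ⁻¹' {r}) :=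
    isCompact_Icc.of_isClosed_subset
      (hαn.preimage_isClosed_of_isClosed isClosed_Icc isClosed_singleton) inter_subset_left
  have hSn : (Icc 0 T0 ∩ (fun t => ‖α t‖) ⁻¹' {r}).Nonempty := by
    obtain ⟨t, ht, htr⟩ := intermediate_value_Icc ht2.1
      (hαn.mono (Icc_subset_Icc le_rfl ht2.2))
      (show r ∈ Icc ‖α 0‖ ‖α t2‖ from ⟨by rw [hα0]; exact hz0.le, ht2r⟩)
    exact ⟨t, ⟨ht.1, ht.2.trans ht2.2⟩, htr⟩
  obtain ⟨T, ⟨hTI, hTr⟩, hTmin⟩ := hS.exists_isLeast hSn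
  have hTr' : ‖α T‖ = r := hTr
  have hle : ∀ t ∈ Icc 0 T, ‖α t‖ ≤ r := by
    intro t ht
    by_contra hcon
    push Not at hcon
    obtain ⟨s, hs, hsr⟩ := intermediate_value_Icc ht.1
      (hαn.mono (Icc_subset_Icc le_rfl (ht.2.trans hTI.2)))
      (show r ∈ Icc ‖α 0‖ ‖α t‖ from ⟨by rw [hα0]; exact hz0.le, hcon.le⟩)
    have h1 := hTmin ⟨⟨hs.1, hs.2.trans (ht.2.trans hTI.2)⟩, hsr⟩
    have h2 : t = T := le_antisymm ht.2 (h1.trans hs.2)
    rw [h2, hTr'] at hcon
    exact lt_irrefl _ hcon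
  have hfl := flow_facts g w0 hw0 T hTI.1 α (by rw [hα0]) (fun t ht => by
    have h1 := (hα t ⟨ht.1, ht.2.trans hTI.2⟩).mono (Icc_subset_Icc le_rfl hTI.2)
    rwa [hVF _ ((hle t ht).trans hr.le)] at h1)
    (fun t ht => hg _ ((hle t ht).trans_lt hr))
  exact ⟨T, α, hTI.1, hαc.mono (Icc_subset_Icc le_rfl hTI.2), hα0, hTr', hle,
    hfl.2.2 (fun t ht => hDne _ (hDmem _ (hle t ht) (hfl.1 t ht))), hfl.1⟩

end Pool.Agent.X170.Esc
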