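import Mathlib

set_option autoImplicit false

namespace Pool.Agent.X170.Esc

open Polynomial Set Filter Topology MeasureTheory
open scoped ENNReal

/-- On a real line the imaginary part of a complex polynomial either vanishes identically or has
at most `natDegree` zeros. -/
theorem line_count (G : ℂ[X]) (α β : ℂ) (h : ∃ s : ℝ, (G.eval (α + β * s)).im ≠ 0)
    (F : Finset ℝ) (hF : ∀ s ∈ F, (G.eval (α + β * s)).im = 0) : F.card ≤ G.natDegree := by
  classical
  set q : ℂ[X] := G.comp (C α + C β * X) with hq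
  set r : ℂ[X] := q - q.map (starRingEnd ℂ) with hr
  have hqe : ∀ s : ℝ, q.eval (s : ℂ) = G.eval (α + β * s) := by
    intro s; rw [hq, eval_comp]; simp
  have hre : ∀ s : ℝ, r.eval (s : ℂ) = 2 * ((G.eval (α + β * s)).im : ℂ) * Complex.I := by
    intro s
    have h1 : (q.map (starRingEnd ℂ)).eval (s : ℂ) = (starRingEnd ℂ) (q.eval (s : ℂ)) := by
      rw [eval_map]
      have := Polynomial.eval₂_at_apply (p := q) (starRingEnd ℂ) (s : ℂ)
      rwa [Complex.conj_ofReal] at this
    rw [hr, eval_sub, h1, Complex.sub_conj, hqe]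
    push_cast
    ring
  have hr0 : r ≠ 0 := by
    rintro h0
    obtain ⟨s, hs⟩ := h
    have h1 := hre s
    rw [h0, eval_zero] at h1
    have h2 : ((G.eval (α + β * s)).im : ℂ) = 0 := by
      have h3 : (2 : ℂ) * Complex.I ≠ 0 := by simp
      have h4 : (2 * Complex.I) * ((G.eval (α + β * s)).im : ℂ) = 0 := by rw [h1]; ring
      exact (mul_eq_zero.1 h4).resolve_left h3
    exact hs (by exact_mod_cast h2)
  have hdq : q.natDegree ≤ G.natDegree := by
    rw [hq]
    refine natDegree_comp_le.trans ?_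
    have : (C α + C β * X : ℂ[X]).natDegree ≤ 1 := by
      rw [add_comm]; exact natDegree_linear_le
    nlinarith
  have hdr : r.natDegree ≤ G.natDegree := by
    rw [hr]
    refine (natDegree_sub_le _ _).trans (max_le hdq ?_)
    exact natDegree_map_le.trans hdq
  have hsub : F.map ⟨fun s : ℝ => (s : ℂ), Complex.ofReal_injective⟩ ⊆ r.roots.toFinset := by
    intro z hz
    obtain ⟨s, hs, rfl⟩ := Finset.mem_map.1 hz
    rw [Multiset.mem_toFinset, mem_roots hr0, IsRoot.def]
    show r.eval (s : ℂ) = 0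
    rw [hre, hF s hs]
    simp
  calc F.card = (F.map ⟨fun s : ℝ => (s : ℂ), Complex.ofReal_injective⟩).card :=
        (Finset.card_map _).symm
    _ ≤ r.roots.toFinset.card := Finset.card_le_card hsub
    _ ≤ r.roots.card := Multiset.toFinset_card_le _
    _ ≤ r.natDegree := card_roots' r
    _ ≤ G.natDegree := hdr

/-- Oscillation sums of a function all of whose level sets (up to a null set of levels) have at
most `n` points. -/
theorem osc_sum (x : ℝ → ℝ) (T : ℝ) (n : ℕ) (hx : ContinuousOn x (Icc 0 T))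
    (hr : ∀ t ∈ Icc 0 T, x t ∈ Icc (-1 : ℝ) 1) (bad : Set ℝ) (hbad : volume bad = 0)
    (hc : ∀ p ∉ bad, ∀ F : Finset ℝ, (∀ t ∈ F, t ∈ Icc 0 T ∧ x t = p) → F.card ≤ n)
    (N : ℕ) (τ : ℕ → ℝ) (hτ : Monotone τ) (hτr : ∀ i ≤ N, τ i ∈ Icc 0 T) (a b : ℕ → ℝ)
    (ha : ∀ i < N, a i ∈ Icc (τ i) (τ (i + 1))) (hb : ∀ i < N, b i ∈ Icc (τ i) (τ (i + 1))) :
    ∑ i ∈ Finset.range N, ENNReal.ofReal |x (b i) - x (a i)| ≤ 2 * n := by
  classical
  set U : ℕ → Set ℝ := fun i => Ioo (min (x (b i)) (x (a i))) (max (x (b i)) (x (a i))) with hU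
  have hsubT : ∀ i < N, Icc (τ i) (τ (i + 1)) ⊆ Icc 0 T := fun i hi =>
    Icc_subset_Icc (hτr i hi.le).1 (hτr (i + 1) hi).2
  have hvol : ∀ i, volume (U i) = ENNReal.ofReal |x (b i) - x (a i)| := by
    intro i
    rw [hU, Real.volume_Ioo, max_sub_min_eq_abs, abs_sub_comm]
  have hae : ∀ᵐ p : ℝ, ∑ i ∈ Finset.range N, (U i).indicator (fun _ => (1 : ℝ≥0∞)) p ≤
      (Icc (-1 : ℝ) 1).indicator (fun _ => (n : ℝ≥0∞)) p := by
    have : ∀ᵐ p : ℝ, p ∉ bad := measure_eq_zero_iff_ae_notMem.1 hbad
    filter_upwards [this] with p hp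
    have hsum : ∑ i ∈ Finset.range N, (U i).indicator (fun _ => (1 : ℝ≥0∞)) p =
        (((Finset.range N).filter fun i => p ∈ U i).card : ℝ≥0∞) := by
      rw [Finset.card_filter]
      push_cast
      refine Finset.sum_congr rfl fun i _ => ?_
      by_cases h : p ∈ U i
      · simp [h]
      · simp [h]
    rw [hsum]
    set S := (Finset.range N).filter fun i => p ∈ U i with hS
    have hex : ∀ i ∈ S, ∃ t, t ∈ Ioo (τ i) (τ (i + 1)) ∧ t ∈ Icc 0 T ∧ x t = p := by
      intro i hi
      obtain ⟨hi1, hi2⟩ := Finset.mem_filter.1 hi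
      have hiN : i < N := Finset.mem_range.1 hi1
      have hab : uIcc (b i) (a i) ⊆ Icc (τ i) (τ (i + 1)) := by
        intro t ht
        have h1 := hb i hiN
        have h2 := ha i hiN
        exact ⟨(le_min h1.1 h2.1).trans ht.1, ht.2.trans (max_le h1.2 h2.2)⟩
      have hpU : p ∈ uIcc (x (b i)) (x (a i)) := ⟨hi2.1.le, hi2.2.le⟩
      obtain ⟨t, ht, htp⟩ := intermediate_value_uIcc
        (hx.mono (hab.trans (hsubT i hiN))) hpU
      have htb : t ≠ b i := by
        rintro rfl
        have h1 := hi2.1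
        have h2 := hi2.2
        rw [htp] at h1 h2
        rcases min_lt_iff.1 h1 with h | h
        · exact lt_irrefl _ h
        · rcases lt_max_iff.1 h2 with h' | h'
          · exact lt_irrefl _ h'
          · exact lt_irrefl _ (h.trans h')
      have hta : t ≠ a i := by
        rintro rfl
        have h1 := hi2.1
        have h2 := hi2.2
        rw [htp] at h1 h2
        rcases min_lt_iff.1 h1 with h | h
        · rcases lt_max_iff.1 h2 with h' | h'
          · exact lt_irrefl _ (h.trans h')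
          · exact lt_irrefl _ h'
        · exact lt_irrefl _ h
      have hlo : τ i < t := by
        rcases (hab ht).1.lt_or_eq with h | h
        · exact h
        · exfalso
          have h1 := hb i hiN
          have h2 := ha i hiN
          rcases min_choice (b i) (a i) with hm | hm
          · exact htb (le_antisymm (by rw [← h]; exact h1.1) (by rw [← hm]; exact ht.1))
          · exact hta (le_antisymm (by rw [← h]; exact h2.1) (by rw [← hm]; exact ht.1))
      have hhi : t < τ (i + 1) := by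
        rcases (hab ht).2.lt_or_eq with h | h
        · exact h
        · exfalso
          have h1 := hb i hiN
          have h2 := ha i hiN
          rcases max_choice (b i) (a i) with hm | hm
          · exact htb (le_antisymm (by rw [← hm]; exact ht.2) (by rw [h]; exact h1.2))
          · exact hta (le_antisymm (by rw [← hm]; exact ht.2) (by rw [h]; exact h2.2))
      exact ⟨t, ⟨hlo, hhi⟩, hsubT i hiN (hab ht), htp⟩
    choose! t ht1 ht2 ht3 using hex
    have hinj : Set.InjOn t S := by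
      intro i hi j hj hij
      by_contra hne
      rcases lt_or_gt_of_ne hne with h | h
      · have h1 := (ht1 i hi).2
        have h2 := (ht1 j hj).1
        have h3 : τ (i + 1) ≤ τ j := hτ h
        rw [hij] at h1
        linarith
      · have h1 := (ht1 j hj).2
        have h2 := (ht1 i hi).1
        have h3 : τ (j + 1) ≤ τ i := hτ h
        rw [← hij] at h1
        linarith
    by_cases hpI : p ∈ Icc (-1 : ℝ) 1
    · rw [Set.indicator_of_mem hpI]
      have hcard : S.card ≤ n := by
        rw [← Finset.card_image_of_injOn hinj]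
        refine hc p hp _ fun s hs => ?_
        obtain ⟨i, hi, rfl⟩ := Finset.mem_image.1 hs
        exact ⟨ht2 i hi, ht3 i hi⟩
      exact_mod_cast hcard
    · rw [Set.indicator_of_notMem hpI]
      have : S = ∅ := by
        apply Finset.eq_empty_of_forall_notMem
        intro i hi
        apply hpI
        rw [← ht3 i hi]
        exact hr _ (ht2 i hi)
      rw [this]; simp
  calc ∑ i ∈ Finset.range N, ENNReal.ofReal |x (b i) - x (a i)|
      = ∑ i ∈ Finset.range N, ∫⁻ p, (U i).indicator (fun _ => (1 : ℝ≥0∞)) p := by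
        refine Finset.sum_congr rfl fun i _ => ?_
        rw [← hvol i, lintegral_indicator_const measurableSet_Ioo, one_mul]
    _ = ∫⁻ p, ∑ i ∈ Finset.range N, (U i).indicator (fun _ => (1 : ℝ≥0∞)) p := by
        rw [lintegral_finsetSum]
        intro i _
        exact measurable_const.indicator measurableSet_Ioo
    _ ≤ ∫⁻ p, (Icc (-1 : ℝ) 1).indicator (fun _ => (n : ℝ≥0∞)) p := lintegral_mono_ae hae
    _ = 2 * n := by
        rw [lintegral_indicator measurableSet_Icc, lintegral_const, Measure.restrict_apply_univ,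
          Real.volume_Icc, mul_comm]
        congr 1
        norm_num

/-- Length bound for an injective continuous path in the unit disc on a level set
`{Im G = 0}` of a polynomial. -/
theorem length_le (G : ℂ[X]) (hG : ∃ z, (G.eval z).im ≠ 0) (γ : ℝ → ℂ) (T : ℝ) (hT : 0 ≤ T)
    (hγ : ContinuousOn γ (Icc 0 T)) (hinj : InjOn γ (Icc 0 T))
    (hball : ∀ t ∈ Icc 0 T, ‖γ t‖ ≤ 1) (hlev : ∀ t ∈ Icc 0 T, (G.eval (γ t)).im = 0) :
    μH[1] (γ '' Icc 0 T) ≤ 4 * G.natDegree := by
  classical
  obtain ⟨w, hw⟩ := hG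
  set n := G.natDegree with hn
  -- real parts
  have hre : ∀ t ∈ Icc 0 T, (γ t).re ∈ Icc (-1 : ℝ) 1 := fun t ht =>
    abs_le.1 ((Complex.abs_re_le_norm _).trans (hball t ht))
  have him : ∀ t ∈ Icc 0 T, (γ t).im ∈ Icc (-1 : ℝ) 1 := fun t ht =>
    abs_le.1 ((Complex.abs_im_le_norm _).trans (hball t ht))
  have hxc : ContinuousOn (fun t => (γ t).re) (Icc 0 T) := Complex.continuous_re.comp_continuousOn hγ
  have hyc : ContinuousOn (fun t => (γ t).im) (Icc 0 T) := Complex.continuous_im.comp_continuousOn hγ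
  -- the bad vertical lines
  have hbadx : volume {p : ℝ | (G.eval ((w.im : ℂ) * Complex.I + 1 * p)).im = 0} = 0 := by
    apply Set.Finite.measure_zero
    by_contra hinf
    obtain ⟨F, hF1, hF2⟩ := (show Set.Infinite _ from hinf).exists_subset_card_eq (n + 1)
    have h1 := line_count G ((w.im : ℂ) * Complex.I) 1 ⟨w.re, by
      have : (w.im : ℂ) * Complex.I + 1 * (w.re : ℂ) = w := by
        rw [one_mul, add_comm]; exact Complex.re_add_im w
      rw [this]; exact hw⟩ F (fun s hs => hF1 hs)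
    omega
  have hbady : volume {q : ℝ | (G.eval ((w.re : ℂ) + Complex.I * q)).im = 0} = 0 := by
    apply Set.Finite.measure_zero
    by_contra hinf
    obtain ⟨F, hF1, hF2⟩ := (show Set.Infinite _ from hinf).exists_subset_card_eq (n + 1)
    have h1 := line_count G (w.re : ℂ) Complex.I ⟨w.im, by
      have : (w.re : ℂ) + Complex.I * (w.im : ℂ) = w := by
        rw [mul_comm Complex.I]; exact Complex.re_add_im w
      rw [this]; exact hw⟩ F (fun s hs => hF1 hs)
    omega
  have hcx : ∀ p ∉ {p : ℝ | (G.eval ((w.im : ℂ) * Complex.I + 1 * p)).im = 0}, ∀ F : Finset ℝ,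
      (∀ t ∈ F, t ∈ Icc 0 T ∧ (γ t).re = p) → F.card ≤ n := by
    intro p hp F hF
    have hi : Set.InjOn (fun t => (γ t).im) F := by
      intro s hs t ht hst
      apply hinj (hF s hs).1 (hF t ht).1
      exact Complex.ext (((hF s hs).2).trans ((hF t ht).2).symm) hst
    rw [← Finset.card_image_of_injOn hi]
    apply line_count G (p : ℂ) Complex.I
    · refine ⟨w.im, ?_⟩
      have : (p : ℂ) + Complex.I * (w.im : ℂ) = (w.im : ℂ) * Complex.I + 1 * p := by ring
      rw [this]; exact hp
    · intro s hs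
      obtain ⟨t, ht, rfl⟩ := Finset.mem_image.1 hs
      have : (p : ℂ) + Complex.I * ((γ t).im : ℂ) = γ t := by
        rw [← (hF t ht).2, mul_comm Complex.I]; exact Complex.re_add_im _
      rw [this]; exact hlev t (hF t ht).1
  have hcy : ∀ q ∉ {q : ℝ | (G.eval ((w.re : ℂ) + Complex.I * q)).im = 0}, ∀ F : Finset ℝ,
      (∀ t ∈ F, t ∈ Icc 0 T ∧ (γ t).im = q) → F.card ≤ n := by
    intro q hq F hF
    have hi : Set.InjOn (fun t => (γ t).re) F := by
      intro s hs t ht hst
      apply hinj (hF s hs).1 (hF t ht).1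
      exact Complex.ext hst (((hF s hs).2).trans ((hF t ht).2).symm)
    rw [← Finset.card_image_of_injOn hi]
    apply line_count G ((q : ℂ) * Complex.I) 1
    · refine ⟨w.re, ?_⟩
      have : (q : ℂ) * Complex.I + 1 * (w.re : ℂ) = (w.re : ℂ) + Complex.I * q := by ring
      rw [this]; exact hq
    · intro s hs
      obtain ⟨t, ht, rfl⟩ := Finset.mem_image.1 hs
      have : (q : ℂ) * Complex.I + 1 * ((γ t).re : ℂ) = γ t := by
        rw [← (hF t ht).2, one_mul, add_comm]; exact Complex.re_add_im _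
      rw [this]; exact hlev t (hF t ht).1
  -- partitions
  set τ : ℕ → ℕ → ℝ := fun N i => i * T / (N + 1) with hτ
  have hτm : ∀ N, Monotone (τ N) := by
    intro N i j hij
    have : (i : ℝ) ≤ j := by exact_mod_cast hij
    rw [hτ]; dsimp only; gcongr
  have hτr : ∀ N i, i ≤ N + 1 → τ N i ∈ Icc 0 T := by
    intro N i hi
    have h1 : (i : ℝ) ≤ N + 1 := by exact_mod_cast hi
    refine ⟨by rw [hτ]; dsimp only; positivity, ?_⟩
    rw [hτ]; dsimp only
    rw [div_le_iff₀ (by positivity)]
    nlinarith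
  have hcover : ∀ N, γ '' Icc 0 T ⊆ ⋃ i : Fin (N + 1), γ '' Icc (τ N i) (τ N (i + 1)) := by
    rintro N _ ⟨t, ht, rfl⟩
    rcases hT.lt_or_eq with hT0 | hT0
    · set j := min N ⌊t * (N + 1) / T⌋₊ with hj
      have hjN : j < N + 1 := by omega
      refine mem_iUnion.2 ⟨⟨j, hjN⟩, t, ⟨?_, ?_⟩, rfl⟩
      · show (j : ℝ) * T / (N + 1) ≤ t
        have h1 : (j : ℝ) ≤ t * (N + 1) / T := by
          have h2 : (j : ℝ) ≤ (⌊t * (N + 1) / T⌋₊ : ℝ) := by
            exact Nat.cast_le.2 (min_le_right _ _)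
          exact h2.trans (Nat.floor_le (by have := ht.1; positivity))
        rw [div_le_iff₀ (by positivity)]
        rwa [le_div_iff₀ hT0] at h1
      · show t ≤ ((j + 1 : ℕ) : ℝ) * T / (N + 1)
        rw [le_div_iff₀ (by positivity)]
        rcases min_choice N ⌊t * (N + 1) / T⌋₊ with h | h
        · rw [hj, h]
          push_cast
          have := ht.2
          nlinarith [(Nat.cast_nonneg N : (0 : ℝ) ≤ N)]
        · have h1 := Nat.lt_floor_add_one (t * (N + 1) / T)
          rw [div_lt_iff₀ hT0] at h1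
          rw [hj, h]
          push_cast
          exact h1.le
    · refine mem_iUnion.2 ⟨0, t, ?_, rfl⟩
      rw [← hT0] at ht
      have h0 : t = 0 := le_antisymm ht.2 ht.1
      rw [h0, hτ, ← hT0]; simp
  -- uniform continuity
  have huc : UniformContinuousOn γ (Icc 0 T) := isCompact_Icc.uniformContinuousOn_of_continuous hγ
  set r : ℕ → ℝ≥0∞ := fun N => ⨆ i : Fin (N + 1), Metric.ediam (γ '' Icc (τ N i) (τ N (i + 1)))
    with hr
  have hrlim : Tendsto r atTop (𝓝 0) := by
    rw [ENNReal.tendsto_nhds_zero]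
    intro ε hε
    obtain ⟨ε', hε'0, hε'⟩ : ∃ ε' : ℝ, 0 < ε' ∧ ENNReal.ofReal ε' ≤ ε := by
      rcases eq_or_ne ε ⊤ with h | h
      · exact ⟨1, one_pos, by rw [h]; exact le_top⟩
      · exact ⟨ε.toReal, ENNReal.toReal_pos hε.ne' h, by rw [ENNReal.ofReal_toReal h]⟩
    obtain ⟨δ, hδ, hd⟩ := Metric.uniformContinuousOn_iff_le.1 huc ε' hε'0
    have hlim : Tendsto (fun N : ℕ => T / ((N : ℝ) + 1)) atTop (𝓝 0) := by
      have h1 := tendsto_one_div_add_atTop_nhds_zero_nat (𝕜 := ℝ)
      have h2 := h1.const_mul T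
      simpa [div_eq_mul_inv] using h2
    filter_upwards [hlim.eventually (gt_mem_nhds hδ)] with N hN
    refine iSup_le fun i => ?_
    refine (Metric.ediam_le ?_).trans hε'
    rintro _ ⟨s, hs, rfl⟩ _ ⟨t, ht, rfl⟩
    rw [edist_dist]
    apply ENNReal.ofReal_le_ofReal
    have hi1 := hτr N i (by omega)
    have hi2 := hτr N (i + 1) (by omega)
    apply hd s ⟨hi1.1.trans hs.1, hs.2.trans hi2.2⟩ t ⟨hi1.1.trans ht.1, ht.2.trans hi2.2⟩
    rw [Real.dist_eq]
    have hstep : τ N (i + 1) - τ N i = T / (N + 1) := by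
      rw [hτ]; push_cast; ring
    rw [abs_le]
    constructor
    · linarith [hs.1, hs.2, ht.1, ht.2]
    · linarith [hs.1, hs.2, ht.1, ht.2]
  refine (Measure.hausdorffMeasure_le_liminf_sum 1 (γ '' Icc 0 T) (l := atTop) r hrlim
    (fun N (i : Fin (N + 1)) => γ '' Icc (τ N i) (τ N (i + 1)))
    (Eventually.of_forall fun N i => le_iSup (fun i : Fin (N + 1) =>
      Metric.ediam (γ '' Icc (τ N i) (τ N (i + 1)))) i)
    (Eventually.of_forall hcover)).trans ?_
  have hbound : ∀ N : ℕ, ∑ i : Fin (N + 1), Metric.ediam (γ '' Icc (τ N i) (τ N (i + 1))) ^ (1 : ℝ) ≤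
      4 * n := by
    intro N
    have hne : ∀ i : ℕ, (Icc (τ N i) (τ N (i + 1))).Nonempty := fun i =>
      nonempty_Icc.2 (hτm N (Nat.le_succ i))
    have hsub : ∀ i < N + 1, Icc (τ N i) (τ N (i + 1)) ⊆ Icc 0 T := fun i hi =>
      Icc_subset_Icc (hτr N i hi.le).1 (hτr N (i + 1) hi).2
    have e1 : ∀ i < N + 1, ∃ a ∈ Icc (τ N i) (τ N (i + 1)), ∀ t ∈ Icc (τ N i) (τ N (i + 1)),
        (γ a).re ≤ (γ t).re := fun i hi => by
      obtain ⟨a, ha, ha'⟩ := isCompact_Icc.exists_isMinOn (hne i) (hxc.mono (hsub i hi))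
      exact ⟨a, ha, fun t ht => ha' ht⟩
    have e2 : ∀ i < N + 1, ∃ a ∈ Icc (τ N i) (τ N (i + 1)), ∀ t ∈ Icc (τ N i) (τ N (i + 1)),
        (γ t).re ≤ (γ a).re := fun i hi => by
      obtain ⟨a, ha, ha'⟩ := isCompact_Icc.exists_isMaxOn (hne i) (hxc.mono (hsub i hi))
      exact ⟨a, ha, fun t ht => ha' ht⟩
    have e3 : ∀ i < N + 1, ∃ a ∈ Icc (τ N i) (τ N (i + 1)), ∀ t ∈ Icc (τ N i) (τ N (i + 1)),
        (γ a).im ≤ (γ t).im := fun i hi => by
      obtain ⟨a, ha, ha'⟩ := isCompact_Icc.exists_isMinOn (hne i) (hyc.mono (hsub i hi))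
      exact ⟨a, ha, fun t ht => ha' ht⟩
    have e4 : ∀ i < N + 1, ∃ a ∈ Icc (τ N i) (τ N (i + 1)), ∀ t ∈ Icc (τ N i) (τ N (i + 1)),
        (γ t).im ≤ (γ a).im := fun i hi => by
      obtain ⟨a, ha, ha'⟩ := isCompact_Icc.exists_isMaxOn (hne i) (hyc.mono (hsub i hi))
      exact ⟨a, ha, fun t ht => ha' ht⟩
    choose! a ha ha' using e1
    choose! b hb hb' using e2
    choose! c hc hc' using e3
    choose! d hd hd' using e4
    have s1 := osc_sum (fun t => (γ t).re) T n hxc hre _ hbadx hcx (N + 1) (τ N) (hτm N)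
      (hτr N) a b ha hb
    have s2 := osc_sum (fun t => (γ t).im) T n hyc him _ hbady hcy (N + 1) (τ N) (hτm N)
      (hτr N) c d hc hd
    have hpiece : ∀ i ∈ Finset.range (N + 1),
        Metric.ediam (γ '' Icc (τ N i) (τ N (i + 1))) ^ (1 : ℝ) ≤
        ENNReal.ofReal |(γ (b i)).re - (γ (a i)).re| +
          ENNReal.ofReal |(γ (d i)).im - (γ (c i)).im| := by
      intro i hi
      have hiN := Finset.mem_range.1 hi
      rw [ENNReal.rpow_one]
      apply Metric.ediam_le
      rintro _ ⟨s, hs, rfl⟩ _ ⟨t, ht, rfl⟩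
      rw [edist_dist, ← ENNReal.ofReal_add (abs_nonneg _) (abs_nonneg _)]
      apply ENNReal.ofReal_le_ofReal
      rw [dist_eq_norm]
      refine (Complex.norm_le_abs_re_add_abs_im _).trans ?_
      rw [Complex.sub_re, Complex.sub_im]
      have h1 := ha' i hiN s hs
      have h2 := ha' i hiN t ht
      have h3 := hb' i hiN s hs
      have h4 := hb' i hiN t ht
      have h5 := hc' i hiN s hs
      have h6 := hc' i hiN t ht
      have h7 := hd' i hiN s hs
      have h8 := hd' i hiN t ht
      apply add_le_add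
      · refine le_trans ?_ (le_abs_self _)
        rw [abs_le]; constructor <;> linarith
      · refine le_trans ?_ (le_abs_self _)
        rw [abs_le]; constructor <;> linarith
    calc ∑ i : Fin (N + 1), Metric.ediam (γ '' Icc (τ N i) (τ N (i + 1))) ^ (1 : ℝ)
        = ∑ i ∈ Finset.range (N + 1),
            Metric.ediam (γ '' Icc (τ N i) (τ N (i + 1))) ^ (1 : ℝ) := by
          rw [Finset.sum_range]
      _ ≤ ∑ i ∈ Finset.range (N + 1), (ENNReal.ofReal |(γ (b i)).re - (γ (a i)).re| +
            ENNReal.ofReal |(γ (d i)).im - (γ (c i)).im|) := Finset.sum_le_sum hpiece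
      _ ≤ 2 * n + 2 * n := by
          rw [Finset.sum_add_distrib]
          exact add_le_add s1 s2
      _ = 4 * n := by ring
  calc liminf (fun N : ℕ => ∑ i : Fin (N + 1),
        Metric.ediam (γ '' Icc (τ N i) (τ N (i + 1))) ^ (1 : ℝ)) atTop
      ≤ liminf (fun _ : ℕ => (4 * n : ℝ≥0∞)) atTop :=
        liminf_le_liminf (Eventually.of_forall hbound)
    _ = 4 * n := liminf_const _

end Pool.Agent.X170.Esc
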