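import Mathlib

set_option autoImplicit false

namespace Pool.Agent.X170.Esc

open Polynomial Set Filter Topology MeasureTheory

lemma line_null (q : ℂ) : volume ((Submodule.span ℝ {q} : Submodule ℝ ℂ) : Set ℂ) = 0 := by
  apply Measure.addHaar_submodule
  intro h
  have h1 : Module.finrank ℝ (Submodule.span ℝ {q} : Submodule ℝ ℂ) ≤ 1 :=
    (finrank_span_le_card (R := ℝ) ({q} : Set ℂ)).trans (by simp)
  rw [h, finrank_top, Complex.finrank_real_complex] at h1
  omega

/-- a good starting point -/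
theorem exists_start (g : ℂ[X]) (hg0 : g.eval 0 = 1) (hdeg : g.natDegree ≠ 0) (η : ℝ)
    (hη : 0 < η) :
    ∃ z0 : ℂ, ‖z0‖ < η ∧ ‖g.eval z0‖ < 1 ∧ (∀ t : ℝ, 0 ≤ t → t ≤ 1 → ‖g.eval (t * z0)‖ ≤ 1) ∧
      ∀ z, (derivative g).eval z = 0 → ∀ s : ℝ, 0 < s → g.eval z ≠ s * g.eval z0 := by
  classical
  have hne : g - 1 ≠ 0 := by
    intro h
    rw [sub_eq_zero] at h
    rw [h] at hdeg
    exact hdeg natDegree_one
  obtain ⟨h, hh1, hh2⟩ := exists_eq_pow_rootMultiplicity_mul_and_not_dvd (g - 1) hne 0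
  set k := rootMultiplicity 0 (g - 1) with hk
  rw [dvd_iff_isRoot, IsRoot.def] at hh2
  rw [C_0, sub_zero] at hh1
  set a := h.eval 0 with ha
  have hk0 : k ≠ 0 := by
    intro h0
    rw [h0, pow_zero, one_mul] at hh1
    apply hh2
    rw [ha, ← hh1, eval_sub, hg0]; simp
  have hge : ∀ z, g.eval z = 1 + z ^ k * h.eval z := by
    intro z
    have : g = 1 + X ^ k * h := by rw [← hh1]; ring
    rw [this]; simp
  -- smallness
  have e1 : ∀ᶠ z in 𝓝 (0 : ℂ), ‖h.eval z - a‖ < ‖a‖ / 8 := by
    have hc : Continuous fun z => ‖h.eval z - a‖ := by fun_prop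
    have := hc.tendsto 0
    rw [← ha, sub_self, norm_zero] at this
    exact this.eventually (gt_mem_nhds (by have := norm_pos_iff.2 hh2; positivity))
  have e2 : ∀ᶠ z in 𝓝 (0 : ℂ), ‖a * z ^ k‖ < 1 / 2 := by
    have hc : Continuous fun z : ℂ => ‖a * z ^ k‖ := by fun_prop
    have := hc.tendsto 0
    rw [zero_pow hk0, mul_zero, norm_zero] at this
    exact this.eventually (gt_mem_nhds (by norm_num))
  obtain ⟨δ, hδ, hδ'⟩ := Metric.eventually_nhds_iff.1 (e1.and e2)
  set W : Set ℂ := {z | ‖z‖ < min δ η ∧ (a * z ^ k).re < -(1 / 2) * ‖a * z ^ k‖} with hW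
  have hWbound : ∀ z : ℂ, ‖z‖ < δ → (a * z ^ k).re < -(1 / 2) * ‖a * z ^ k‖ →
      ‖g.eval z‖ < 1 := by
    intro z hz hz2
    obtain ⟨b1, b2⟩ := hδ' (show dist z 0 < δ by simpa using hz)
    set u := a * z ^ k with hu
    have hu0 : 0 < ‖u‖ := by
      rcases (norm_nonneg u).lt_or_eq with h' | h'
      · exact h'
      · exfalso
        have : u = 0 := norm_eq_zero.1 h'.symm
        rw [this] at hz2; simp at hz2
    have h1 : g.eval z = (1 + u) + z ^ k * (h.eval z - a) := by rw [hge, hu]; ring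
    have h2 : ‖1 + u‖ ≤ 1 - ‖u‖ / 4 := by
      have h3 : ‖1 + u‖ ^ 2 = 1 + 2 * u.re + ‖u‖ ^ 2 := by
        rw [← Complex.normSq_eq_norm_sq, ← Complex.normSq_eq_norm_sq, Complex.normSq_apply,
          Complex.normSq_apply]
        simp only [Complex.add_re, Complex.one_re, Complex.add_im, Complex.one_im, zero_add]
        ring
      apply le_of_sq_le_sq _ (by linarith)
      rw [h3]
      nlinarith
    have h4 : ‖z ^ k * (h.eval z - a)‖ ≤ ‖u‖ / 8 := by
      rw [norm_mul, hu, norm_mul]
      have := norm_nonneg (z ^ k)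
      nlinarith
    rw [h1]
    have := norm_add_le (1 + u) (z ^ k * (h.eval z - a))
    linarith
  have hWo : IsOpen W := by
    apply (isOpen_lt continuous_norm continuous_const).inter
    have c1 : Continuous fun z : ℂ => (a * z ^ k).re :=
      Complex.continuous_re.comp (by fun_prop : Continuous fun z : ℂ => a * z ^ k)
    have c2 : Continuous fun z : ℂ => -(1 / 2) * ‖a * z ^ k‖ := by fun_prop
    exact isOpen_lt c1 c2
  have hWne : W.Nonempty := by
    obtain ⟨v, hv⟩ := IsAlgClosed.exists_pow_nat_eq (-(starRingEnd ℂ) a) (Nat.pos_of_ne_zero hk0)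
    have hv0 : v ≠ 0 := by
      intro h0
      rw [h0, zero_pow hk0] at hv
      have h1 : (starRingEnd ℂ) a = 0 := by rw [← neg_eq_zero]; exact hv.symm
      exact hh2 ((_root_.map_eq_zero _).1 h1)
    have hvn : 0 < ‖v‖ := norm_pos_iff.2 hv0
    set t : ℝ := min δ η / (2 * ‖v‖) with ht
    have hm : 0 < min δ η := lt_min hδ hη
    have ht0 : 0 < t := by positivity
    refine ⟨t * v, ?_, ?_⟩
    · rw [norm_mul, Complex.norm_real, Real.norm_eq_abs, abs_of_pos ht0, ht]
      have : min δ η / (2 * ‖v‖) * ‖v‖ = min δ η / 2 := by field_simp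
      rw [this]; linarith
    · have h1 : a * (t * v) ^ k = ((-(t ^ k * ‖a‖ ^ 2) : ℝ) : ℂ) := by
        rw [mul_pow, hv]
        have : a * (starRingEnd ℂ) a = ((‖a‖ ^ 2 : ℝ) : ℂ) := by
          rw [Complex.mul_conj, Complex.normSq_eq_norm_sq]
        calc a * ((t : ℂ) ^ k * -(starRingEnd ℂ) a) = -((t : ℂ) ^ k * (a * (starRingEnd ℂ) a)) := by
              ring
          _ = _ := by rw [this]; push_cast; ring
      have hp : 0 < t ^ k * ‖a‖ ^ 2 := by
        have := norm_pos_iff.2 hh2
        positivity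
      rw [h1, Complex.ofReal_re, Complex.norm_real, Real.norm_eq_abs, abs_neg, abs_of_pos hp]
      linarith
  -- the image is open, so it is not covered by finitely many real lines
  have himg : IsOpen ((fun z => g.eval z) '' W) := by
    have han : AnalyticOnNhd ℂ (fun z => g.eval z) univ :=
      (g.differentiable).differentiableOn.analyticOnNhd isOpen_univ
    rcases han.is_constant_or_isOpen isPreconnected_univ with ⟨w, hw⟩ | h1
    · exfalso
      apply hdeg
      have : g = C w := Polynomial.funext fun z => by rw [hw z (mem_univ z), eval_C]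
      rw [this, natDegree_C]
    · exact h1 W (subset_univ _) hWo
  set CV : Finset ℂ := (derivative g).roots.toFinset.image (fun z => g.eval z) with hCV
  have hnull : volume (⋃ q ∈ CV, ((Submodule.span ℝ {q} : Submodule ℝ ℂ) : Set ℂ)) = 0 := by
    refine le_antisymm ((measure_biUnion_finset_le CV _).trans ?_) bot_le
    rw [Finset.sum_eq_zero fun q _ => line_null q]
  obtain ⟨w0, hw0, hw0'⟩ : ∃ w0 ∈ (fun z => g.eval z) '' W,
      w0 ∉ ⋃ q ∈ CV, ((Submodule.span ℝ {q} : Submodule ℝ ℂ) : Set ℂ) := by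
    by_contra hcon
    push Not at hcon
    have h1 := himg.measure_pos volume (hWne.image _)
    have h2 := measure_mono_null hcon hnull
    rw [h2] at h1
    exact lt_irrefl _ h1
  obtain ⟨z0, hz0, rfl⟩ := hw0
  have hd0 : derivative g ≠ 0 := fun h0 => hdeg (Polynomial.derivative_eq_zero.1 h0)
  refine ⟨z0, hz0.1.trans_le (min_le_right _ _), hWbound z0 (hz0.1.trans_le (min_le_left _ _)) hz0.2,
    ?_, ?_⟩
  · intro t ht0 ht1
    rcases ht0.lt_or_eq with ht | ht
    · apply le_of_lt
      apply hWbound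
      · rw [norm_mul, Complex.norm_real, Real.norm_eq_abs, abs_of_pos ht]
        have h1 := hz0.1.trans_le (min_le_left _ _)
        have h2 := norm_nonneg z0
        nlinarith
      · have h1 : a * (t * z0) ^ k = ((t ^ k : ℝ) : ℂ) * (a * z0 ^ k) := by
          rw [mul_pow]; push_cast; ring
        have h2 : 0 < t ^ k := pow_pos ht k
        rw [h1, Complex.re_ofReal_mul, norm_mul, Complex.norm_real, Real.norm_eq_abs,
          abs_of_pos h2]
        have h3 := hz0.2
        nlinarith
    · rw [← ht]; simp [hg0]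
  · intro z hz s hs heq
    apply hw0'
    have hzCV : g.eval z ∈ CV := by
      rw [hCV]
      exact Finset.mem_image.2 ⟨z, by rw [Multiset.mem_toFinset, mem_roots hd0]; exact hz, rfl⟩
    refine mem_iUnion₂.2 ⟨g.eval z, hzCV, ?_⟩
    show (g.eval z0) ∈ Submodule.span ℝ {g.eval z}
    rw [Submodule.mem_span_singleton]
    refine ⟨s⁻¹, ?_⟩
    rw [heq]
    have : (s : ℂ) ≠ 0 := by exact_mod_cast hs.ne'
    rw [Complex.real_smul]; push_cast; field_simp

end Pool.Agent.X170.Esc
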