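import Mathlib
import Pool.Agent.X170.Esc.Len
import Pool.Agent.X170.Esc.Flow
import Pool.Agent.X170.Esc.Start

set_option autoImplicit false

namespace Pool.Agent.X170.Esc

open Polynomial Set Filter Topology MeasureTheory
open scoped ENNReal

/-- the Blaschke denominators -/
noncomputable def den (s : Multiset ℂ) : ℂ[X] :=
  (s.map fun a => 1 - C ((starRingEnd ℂ) a) * X).prod

lemma den_eval (s : Multiset ℂ) (z : ℂ) :
    (den s).eval z = (s.map fun a => 1 - (starRingEnd ℂ) a * z).prod := by
  unfold den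
  rw [eval_multiset_prod, Multiset.map_map]
  congr 1
  apply Multiset.map_congr rfl
  intro a _
  simp

lemma den_natDegree (s : Multiset ℂ) : (den s).natDegree ≤ s.card := by
  unfold den
  refine (natDegree_multiset_prod_le _).trans ?_
  rw [Multiset.map_map]
  refine (Multiset.sum_le_card_nsmul _ 1 ?_).trans (by simp)
  intro x hx
  obtain ⟨a, _, rfl⟩ := Multiset.mem_map.1 hx
  show (1 - C ((starRingEnd ℂ) a) * X : ℂ[X]).natDegree ≤ 1
  refine (natDegree_sub_le _ _).trans (max_le (by simp) ?_)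
  exact (natDegree_C_mul_le _ _).trans natDegree_X_le

lemma den_zero (s : Multiset ℂ) : (den s).eval 0 = 1 := by
  rw [den_eval]; simp

lemma den_ne (s : Multiset ℂ) (hs : ∀ a ∈ s, ‖a‖ ≤ 1) (z : ℂ) (hz : ‖z‖ < 1) :
    (den s).eval z ≠ 0 := by
  rw [den_eval]
  apply Multiset.prod_ne_zero
  intro h
  obtain ⟨a, ha, h1⟩ := Multiset.mem_map.1 h
  rw [sub_eq_zero] at h1
  have h2 : ‖(starRingEnd ℂ) a * z‖ = 1 := by rw [← h1, norm_one]
  rw [norm_mul, RCLike.norm_conj] at h2
  have h3 := hs a ha
  nlinarith [norm_nonneg z, norm_nonneg a]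

lemma blaschke (a z : ℂ) (ha : ‖a‖ ≤ 1) (hz : ‖z‖ ≤ 1) :
    ‖z - a‖ ≤ ‖1 - (starRingEnd ℂ) a * z‖ := by
  apply le_of_sq_le_sq _ (norm_nonneg _)
  have h1 : ‖1 - (starRingEnd ℂ) a * z‖ ^ 2 - ‖z - a‖ ^ 2 = (1 - ‖a‖ ^ 2) * (1 - ‖z‖ ^ 2) := by
    simp only [← Complex.normSq_eq_norm_sq, Complex.normSq_apply, Complex.sub_re, Complex.sub_im,
      Complex.one_re, Complex.one_im, Complex.mul_re, Complex.mul_im, Complex.conj_re,
      Complex.conj_im]
    ring
  have h2 : ‖a‖ ^ 2 ≤ 1 := by nlinarith [norm_nonneg a]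
  have h3 : ‖z‖ ^ 2 ≤ 1 := by nlinarith [norm_nonneg z]
  nlinarith

lemma prod_le (z : ℂ) (hz : ‖z‖ ≤ 1) (s : Multiset ℂ) (hs : ∀ a ∈ s, ‖a‖ ≤ 1) :
    ‖(s.map fun a => z - a).prod‖ ≤ ‖(s.map fun a => 1 - (starRingEnd ℂ) a * z).prod‖ := by
  induction s using Multiset.induction with
  | empty => simp
  | cons a s ih =>
    rw [Multiset.map_cons, Multiset.map_cons, Multiset.prod_cons, Multiset.prod_cons, norm_mul,
      norm_mul]
    exact mul_le_mul (blaschke a z (hs a (Multiset.mem_cons_self a s)) hz)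
      (ih fun b hb => hs b (Multiset.mem_cons_of_mem hb)) (norm_nonneg _) (norm_nonneg _)

lemma norm_le_den (f : ℂ[X]) (hf : f.Monic) (hr : ∀ a ∈ f.roots, ‖a‖ ≤ 1) (z : ℂ) (hz : ‖z‖ ≤ 1) :
    ‖f.eval z‖ ≤ ‖(den f.roots).eval z‖ := by
  have h1 : f.eval z = (f.roots.map fun a => z - a).prod := by
    have h2 := (IsAlgClosed.splits f).eq_prod_roots
    rw [hf.leadingCoeff, C_1, one_mul] at h2
    conv_lhs => rw [h2]
    rw [eval_multiset_prod, Multiset.map_map]
    congr 1
    apply Multiset.map_congr rfl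
    intro a _
    simp
  rw [h1, den_eval]
  exact prod_le z hz _ hr

/-- straight segments as paths -/
noncomputable def seg (a b : ℂ) : Path a b where
  toFun t := a + (t : ℝ) • (b - a)
  continuous_toFun := by fun_prop
  source' := by simp
  target' := by simp

lemma seg_range (a b : ℂ) : μH[1] (Set.range (seg a b)) ≤ ENNReal.ofReal ‖b - a‖ := by
  have h1 : Set.range (seg a b) ⊆ segment ℝ a b := by
    rintro _ ⟨t, rfl⟩
    rw [segment_eq_image']
    exact ⟨(t : ℝ), ⟨t.2.1, t.2.2⟩, rfl⟩
  refine (measure_mono h1).trans ?_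
  rw [hausdorffMeasure_segment, edist_dist, dist_comm, dist_eq_norm]

theorem exists_short (f : ℂ[X]) (hf : f.Monic) (hr : ∀ z, f.eval z = 0 → ‖z‖ ≤ 1)
    (hn : f.natDegree ≠ 0) (η : ℝ) (hη : 0 < η) :
    ∃ γ : C(unitInterval, ℂ), γ 0 = 0 ∧ ‖γ 1‖ = 1 ∧ (∀ t, ‖f.eval (γ t)‖ ≤ 1) ∧
      μH[1] (Set.range γ) ≤ 4 * f.natDegree + ENNReal.ofReal (2 * η) := by
  have hr' : ∀ a ∈ f.roots, ‖a‖ ≤ 1 := fun a ha => hr a (isRoot_of_mem_roots ha)
  set g := den f.roots with hg
  have hg0 : g.eval 0 = 1 := den_zero _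
  have hgd : g.natDegree ≤ f.natDegree := (den_natDegree _).trans (card_roots' f)
  have hgne : ∀ z, ‖z‖ < 1 → g.eval z ≠ 0 := fun z hz => den_ne _ hr' z hz
  have hfg : ∀ z, ‖z‖ ≤ 1 → ‖g.eval z‖ ≤ 1 → ‖f.eval z‖ ≤ 1 := fun z hz h =>
    (norm_le_den f hf hr' z hz).trans h
  by_cases hdeg : g.natDegree = 0
  · -- constant case
    have hg1 : ∀ z, g.eval z = 1 := by
      intro z
      rw [eq_C_of_natDegree_eq_zero hdeg] at hg0 ⊢
      simpa using hg0
    refine ⟨(seg 0 1).toContinuousMap, (seg 0 1).source, by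
      have h1 : (seg 0 1).toContinuousMap 1 = 1 := (seg 0 1).target
      rw [h1, norm_one], ?_, ?_⟩
    · intro t
      apply hfg
      · show ‖(0 : ℂ) + (t : ℝ) • (1 - 0)‖ ≤ 1
        rw [zero_add, sub_zero, norm_smul, norm_one, mul_one, Real.norm_eq_abs,
          abs_of_nonneg t.2.1]
        exact t.2.2
      · rw [hg1, norm_one]
    · refine (seg_range 0 1).trans ?_
      rw [sub_zero, norm_one, ENNReal.ofReal_one]
      have h1 : (1 : ℝ≥0∞) ≤ f.natDegree := by
        exact_mod_cast Nat.one_le_iff_ne_zero.2 hn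
      calc (1 : ℝ≥0∞) ≤ f.natDegree := h1
        _ ≤ 4 * f.natDegree := by
          rw [show (4 : ℝ≥0∞) * f.natDegree = f.natDegree + 3 * f.natDegree by ring]
          exact le_self_add
        _ ≤ _ := le_self_add
  · obtain ⟨z0, hz0n, hz0g, hz0s, hz0c⟩ := exists_start g hg0 hdeg (min η (1 / 2))
      (lt_min hη (by norm_num))
    have hz0η : ‖z0‖ < η := hz0n.trans_le (min_le_left _ _)
    have hz01 : ‖z0‖ < 1 / 2 := hz0n.trans_le (min_le_right _ _)
    -- uniform continuity
    have huc : UniformContinuousOn (fun z => g.eval z) (Metric.closedBall (0 : ℂ) 1) :=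
      (isCompact_closedBall (0 : ℂ) 1).uniformContinuousOn_of_continuous (by fun_prop)
    obtain ⟨δ, hδ, hδ'⟩ := Metric.uniformContinuousOn_iff.1 huc (1 - ‖g.eval z0‖) (by linarith)
    set ε : ℝ := min (min η (δ / 2)) (1 / 4) with hε
    have hε0 : 0 < ε := lt_min (lt_min hη (by linarith)) (by norm_num)
    have hεη : ε ≤ η := (min_le_left _ _).trans (min_le_left _ _)
    have hεδ : ε < δ := ((min_le_left _ _).trans (min_le_right _ _)).trans_lt (by linarith)
    have hε4 : ε ≤ 1 / 4 := min_le_right _ _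
    obtain ⟨T, α, hT, hαc, hα0, hαT, hαr, hαi, hαg⟩ := exists_path g z0 (1 - ε) (by linarith)
      (by linarith) hgne (fun z _ hz s hs _ => hz0c z hz s hs)
    set w0 := g.eval z0 with hw0
    have hw0ne : w0 ≠ 0 := hgne z0 (by linarith)
    -- length of the middle part
    set G : ℂ[X] := C ((starRingEnd ℂ) w0) * g with hG
    have hGd : G.natDegree ≤ f.natDegree := (natDegree_C_mul_le _ _).trans hgd
    have hGlev : ∀ t ∈ Icc 0 T, (G.eval (α t)).im = 0 := by
      intro t ht
      obtain ⟨s, _, _, hs⟩ := hαg t ht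
      rw [hG, eval_mul, eval_C, hs]
      have : (starRingEnd ℂ) w0 * (s * w0) = ((s * ‖w0‖ ^ 2 : ℝ) : ℂ) := by
        have h1 : w0 * (starRingEnd ℂ) w0 = ((‖w0‖ ^ 2 : ℝ) : ℂ) := by
          rw [Complex.mul_conj, Complex.normSq_eq_norm_sq]
        calc (starRingEnd ℂ) w0 * (s * w0) = s * (w0 * (starRingEnd ℂ) w0) := by ring
          _ = _ := by rw [h1]; push_cast; ring
      rw [this, Complex.ofReal_im]
    have hGex : ∃ z, (G.eval z).im ≠ 0 := by
      have hne : (G - C Complex.I).natDegree ≠ 0 := by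
        rw [natDegree_sub_C, hG, natDegree_C_mul ((_root_.map_ne_zero _).2 hw0ne)]
        exact hdeg
      obtain ⟨z, hz⟩ := Complex.exists_root (natDegree_pos_iff_degree_pos.1
        (Nat.pos_of_ne_zero hne))
      refine ⟨z, ?_⟩
      have h1 : G.eval z = Complex.I := by
        rw [IsRoot.def, eval_sub, eval_C, sub_eq_zero] at hz
        exact hz
      rw [h1]; simp
    have hlen := length_le G hGex α T hT hαc hαi (fun t ht => (hαr t ht).trans (by linarith)) hGlev
    -- the three pieces
    set e := α T with he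
    set e' : ℂ := ((1 / (1 - ε) : ℝ) : ℂ) * e with he'
    have he'n : ‖e'‖ = 1 := by
      rw [he', norm_mul, Complex.norm_real, Real.norm_eq_abs, hαT, abs_of_pos (by
        apply one_div_pos.2; linarith)]
      exact one_div_mul_cancel (by linarith)
    have hee' : e' - e = ((ε / (1 - ε) : ℝ) : ℂ) * e := by
      have h1 : (1 - ε) ≠ 0 := by linarith
      have h2 : (1 / (1 - ε) : ℝ) = 1 + ε / (1 - ε) := by field_simp; ring
      rw [he', h2]; push_cast; ring
    have hee'n : ‖e' - e‖ = ε := by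
      rw [hee', norm_mul, Complex.norm_real, Real.norm_eq_abs, hαT, abs_of_pos (by
        apply div_pos hε0; linarith)]
      have h1 : (1 - ε) ≠ 0 := by linarith
      field_simp
    let p2 : Path z0 e :=
      { toFun := fun t => α (T * t)
        continuous_toFun := by
          apply hαc.comp_continuous (by fun_prop)
          intro t
          exact ⟨mul_nonneg hT t.2.1, mul_le_of_le_one_right hT t.2.2⟩
        source' := by simp [hα0]
        target' := by simp [he] }
    have hp2 : Set.range p2 ⊆ α '' Icc 0 T := by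
      rintro _ ⟨t, rfl⟩
      exact ⟨T * t, ⟨mul_nonneg hT t.2.1, mul_le_of_le_one_right hT t.2.2⟩, rfl⟩
    let p : Path 0 e' := ((seg 0 z0).trans p2).trans (seg e e')
    have hrange : Set.range p = (Set.range (seg 0 z0) ∪ Set.range p2) ∪ Set.range (seg e e') := by
      show Set.range (((seg 0 z0).trans p2).trans (seg e e')) = _
      rw [Path.trans_range, Path.trans_range]
    refine ⟨p.toContinuousMap, p.source, by
      have h1 : p.toContinuousMap 1 = e' := p.target
      rw [h1, he'n], ?_, ?_⟩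
    · intro t
      have hmem : p t ∈ Set.range p := ⟨t, rfl⟩
      rw [hrange] at hmem
      show ‖f.eval (p t)‖ ≤ 1
      rcases hmem with (⟨u, hu⟩ | hm) | ⟨u, hu⟩
      · rw [← hu]
        have h1 : (seg 0 z0) u = ((u : ℝ) : ℂ) * z0 := by
          show (0 : ℂ) + (u : ℝ) • (z0 - 0) = _
          rw [zero_add, sub_zero, Complex.real_smul]
        rw [h1]
        apply hfg
        · rw [norm_mul, Complex.norm_real, Real.norm_eq_abs, abs_of_nonneg u.2.1]
          have h2 := u.2.2
          have h3 := u.2.1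
          nlinarith [norm_nonneg z0]
        · exact hz0s u u.2.1 u.2.2
      · obtain ⟨s, hs, hs'⟩ := hp2 hm
        rw [← hs']
        apply hfg
        · exact (hαr s hs).trans (by linarith)
        · obtain ⟨c, hc0, hc1, hc⟩ := hαg s hs
          rw [hc, norm_mul, Complex.norm_real, Real.norm_eq_abs, abs_of_pos hc0]
          nlinarith [norm_nonneg w0]
      · rw [← hu]
        have h1 : (seg e e') u = e + ((u : ℝ) : ℂ) * (e' - e) := by
          show e + (u : ℝ) • (e' - e) = _
          rw [Complex.real_smul]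
        have h2 : ‖((u : ℝ) : ℂ) * (e' - e)‖ ≤ ε := by
          rw [norm_mul, Complex.norm_real, Real.norm_eq_abs, abs_of_nonneg u.2.1, hee'n]
          have h2 := u.2.2
          nlinarith
        have h3 : ‖(seg e e') u‖ ≤ 1 := by
          rw [h1]
          refine (norm_add_le _ _).trans ?_
          rw [hαT]; linarith
        apply hfg _ h3
        have h4 := hδ' ((seg e e') u) (by simpa using h3) e (by
          rw [mem_closedBall_zero_iff, hαT]; linarith) (by
          rw [dist_eq_norm, h1, add_sub_cancel_left]; linarith)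
        rw [dist_eq_norm] at h4
        obtain ⟨c, hc0, hc1, hc⟩ := hαg T ⟨hT, le_rfl⟩
        have h5 : ‖g.eval e‖ ≤ ‖w0‖ := by
          rw [he, hc, norm_mul, Complex.norm_real, Real.norm_eq_abs, abs_of_pos hc0]
          nlinarith [norm_nonneg w0]
        have h6 := norm_le_norm_add_norm_sub' (g.eval ((seg e e') u)) (g.eval e)
        linarith
    · show μH[1] (Set.range p) ≤ _
      rw [hrange]
      calc μH[1] ((Set.range (seg 0 z0) ∪ Set.range p2) ∪ Set.range (seg e e'))
          ≤ (μH[1] (Set.range (seg 0 z0)) + μH[1] (Set.range p2)) +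
              μH[1] (Set.range (seg e e')) :=
            (measure_union_le _ _).trans (add_le_add (measure_union_le _ _) le_rfl)
        _ ≤ (ENNReal.ofReal η + 4 * f.natDegree) + ENNReal.ofReal η := by
            apply add_le_add (add_le_add _ _) _
            · refine (seg_range 0 z0).trans (ENNReal.ofReal_le_ofReal ?_)
              rw [sub_zero]; exact hz0η.le
            · refine (measure_mono hp2).trans (hlen.trans ?_)
              gcongr
            · refine (seg_range e e').trans (ENNReal.ofReal_le_ofReal ?_)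
              rw [hee'n]; exact hεη
        _ = 4 * f.natDegree + ENNReal.ofReal (2 * η) := by
            rw [two_mul, ENNReal.ofReal_add hη.le hη.le]; ring

end Pool.Agent.X170.Esc
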